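import Pool.Agent.TH966.KS.Ana

/-!
# Sampling: a sequence that satisfies Kesten's inequality is controlled by its values on a set with
gaps of order `√n`
-/

set_option autoImplicit false

namespace TH966.KS

open Finset Filter Topology

variable {y : ℕ → ℝ} {D θ : ℝ} {k0 : ℕ}

theorem sandwich (hK : Kes y D θ k0) (hy : ∀ k, 0 ≤ y k) (hD : 0 ≤ D) (hθ0 : 0 < θ) (hθ1 : θ < 1)
    {m1 m2 m3 n : ℕ} (h0 : k0 ≤ m1) (h0' : 0 < m1) (h12 : m1 < m2) (h2n : m2 ≤ n) (hn3 : n ≤ m3)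
    (hnm : n + m1 ≤ 2 * m2) {Ψ τ L : ℝ} (hτ : 0 ≤ τ)
    (h1 : 0 < y m1 ∧ |Real.log (y m1) - Ψ| ≤ τ) (h2 : 0 < y m2 ∧ |Real.log (y m2) - Ψ| ≤ τ)
    (h3 : 0 < y m3 ∧ |Real.log (y m3) - Ψ| ≤ τ) (hL : D * ((m3 : ℝ) - m1) ^ 2 / m1 ≤ L)
    (hth : 3 * L + 3 * τ - Ψ ≤ 2 * m1 * Real.log (1 / θ)) :
    0 < y n ∧ |Real.log (y n) - Ψ| ≤ 3 * τ + 3 * L := by
  have hm1 : (0 : ℝ) < m1 := by exact_mod_cast h0'
  have hL0 : 0 ≤ L := le_trans (by positivity) hL
  set g : ℝ := 1 + D / m1 with hg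
  have hDm : 0 ≤ D / m1 := by positivity
  have hg1 : 1 ≤ g := by rw [hg]; linarith
  have hg0 : 0 < g := by linarith
  have hge : g ≤ Real.exp (D / m1) := by
    rw [hg, add_comm]; exact Real.add_one_le_exp _
  obtain ⟨a, ha⟩ : ∃ a, m2 = m1 + a := ⟨m2 - m1, by omega⟩
  obtain ⟨b, hb⟩ : ∃ b, m3 = m2 + b := ⟨m3 - m2, by omega⟩
  have hpow : ∀ c s : ℕ, (s : ℝ) ≤ (m3 : ℝ) - m1 → g ^ (c * s ^ 2) ≤ Real.exp (c * L) := by
    intro c s hs
    calc g ^ (c * s ^ 2) ≤ Real.exp (D / m1) ^ (c * s ^ 2) := pow_le_pow_left₀ hg0.le hge _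
      _ = Real.exp (((c * s ^ 2 : ℕ) : ℝ) * (D / m1)) := by rw [← Real.exp_nat_mul]
      _ ≤ Real.exp (c * L) := by
        refine Real.exp_le_exp.2 ?_
        push_cast
        have h5 : (s : ℝ) ^ 2 ≤ ((m3 : ℝ) - m1) ^ 2 := pow_le_pow_left₀ (by positivity) hs 2
        have h6 : (s : ℝ) ^ 2 * (D / m1) ≤ L := by
          refine le_trans (mul_le_mul_of_nonneg_right h5 hDm) ?_
          refine le_of_eq_of_le ?_ hL
          ring
        calc (c : ℝ) * s ^ 2 * (D / m1) = c * (s ^ 2 * (D / m1)) := by ring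
          _ ≤ c * L := mul_le_mul_of_nonneg_left h6 (by positivity)
  have hθe : ∀ k : ℕ, θ ^ k = Real.exp (-(k * Real.log (1 / θ))) := by
    intro k
    rw [one_div, Real.log_inv, mul_neg, neg_neg, ← Real.log_pow, Real.exp_log (by positivity)]
  have hlo : ∀ k : ℕ, 0 < y k ∧ |Real.log (y k) - Ψ| ≤ τ →
      Real.exp (Ψ - τ) ≤ y k ∧ y k ≤ Real.exp (Ψ + τ) := by
    intro k hk
    have h4 := abs_le.1 hk.2
    constructor
    · rw [← Real.le_log_iff_exp_le hk.1]; linarith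
    · rw [← Real.log_le_iff_le_exp hk.1]; linarith
  have l1 := hlo m1 h1
  have l2 := hlo m2 h2
  have l3 := hlo m3 h3
  have hmin : Real.exp (Ψ - 3 * τ) ≤ y m2 * min 1 (y m2 / y m1) := by
    have h5 : Real.exp (-(2 * τ)) ≤ min 1 (y m2 / y m1) := by
      refine le_min (Real.exp_le_one_iff.2 (by linarith)) ?_
      rw [le_div_iff₀ h1.1]
      calc Real.exp (-(2 * τ)) * y m1 ≤ Real.exp (-(2 * τ)) * Real.exp (Ψ + τ) :=
            mul_le_mul_of_nonneg_left l1.2 (Real.exp_pos _).le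
        _ = Real.exp (Ψ - τ) := by rw [← Real.exp_add]; congr 1; ring
        _ ≤ y m2 := l2.1
    calc Real.exp (Ψ - 3 * τ) = Real.exp (Ψ - τ) * Real.exp (-(2 * τ)) := by
          rw [← Real.exp_add]; congr 1; ring
      _ ≤ y m2 * min 1 (y m2 / y m1) :=
        mul_le_mul l2.1 h5 (Real.exp_pos _).le h2.1.le
  have hc1 : (m1 : ℝ) < m2 := by exact_mod_cast h12
  have hc2 : (m2 : ℝ) ≤ m3 := by exact_mod_cast (h2n.trans hn3)
  have haR : (a : ℝ) = m2 - m1 := by rw [ha]; push_cast; ring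
  have hbR : (b : ℝ) = m3 - m2 := by rw [hb]; push_cast; ring
  have hga : g ^ (3 * a ^ 2) ≤ Real.exp (3 * L) := by
    have := hpow 3 a (by rw [haR]; linarith)
    exact_mod_cast this
  have hgb : g ^ (2 * b ^ 2) ≤ Real.exp (2 * L) := by
    have := hpow 2 b (by rw [hbR]; linarith)
    exact_mod_cast this
  obtain ⟨j, hj⟩ : ∃ j, n = m2 + j := ⟨n - m2, by omega⟩
  have hlow : Real.exp (Ψ - 3 * τ) ≤ y n * Real.exp (3 * L) := by
    have h5 := low (b := m1) (a := a) (g := g) hK hy hD hθ0 hθ1 h0 h0' (by omega) le_rfl h1.1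
      (by rw [← ha]; exact h2.1) (by
        rw [← ha]
        refine le_trans ?_ hmin
        calc θ ^ (2 * m1) * g ^ (3 * a ^ 2) ≤ θ ^ (2 * m1) * Real.exp (3 * L) :=
              mul_le_mul_of_nonneg_left hga (by positivity)
          _ = Real.exp (-((2 * m1 : ℕ) * Real.log (1 / θ)) + 3 * L) := by
            rw [hθe, ← Real.exp_add]
          _ ≤ Real.exp (Ψ - 3 * τ) := by
            refine Real.exp_le_exp.2 ?_
            push_cast
            linarith) j (by omega)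
    rw [← ha, ← hj] at h5
    exact hmin.trans (h5.trans (mul_le_mul_of_nonneg_left hga (hy _)))
  have hyn : 0 < y n := by
    have : 0 < y n * Real.exp (3 * L) := lt_of_lt_of_le (Real.exp_pos _) hlow
    exact pos_of_mul_pos_left this (Real.exp_pos _).le
  have hupp : y n ≤ Real.exp (Ψ + τ + 2 * L) := by
    have h5 := upp (m := m2) (b := b) (g := g) hK hy hD hθ0 hθ1 (by omega) (by omega)
      (g_anti hD h0' h12.le le_rfl) h2.1 (by
        refine le_trans ?_ l2.1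
        calc θ ^ (2 * m2) * g ^ (2 * b ^ 2) ≤ θ ^ (2 * m1) * Real.exp (2 * L) :=
              mul_le_mul (pow_le_pow_of_le_one hθ0.le hθ1.le (by omega)) hgb (by positivity)
                (by positivity)
          _ = Real.exp (-((2 * m1 : ℕ) * Real.log (1 / θ)) + 2 * L) := by
            rw [hθe, ← Real.exp_add]
          _ ≤ Real.exp (Ψ - τ) := by
            refine Real.exp_le_exp.2 ?_
            push_cast
            linarith) n h2n (by omega)
    refine h5.trans (max_le ?_ ?_)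
    · exact l2.2.trans (Real.exp_le_exp.2 (by linarith))
    · rw [← hb]
      calc y m3 * g ^ (2 * b ^ 2) ≤ Real.exp (Ψ + τ) * Real.exp (2 * L) :=
            mul_le_mul l3.2 hgb (by positivity) (Real.exp_pos _).le
        _ = Real.exp (Ψ + τ + 2 * L) := by rw [← Real.exp_add]
  refine ⟨hyn, abs_le.2 ⟨?_, ?_⟩⟩
  · have h5 : Real.exp (Ψ - 3 * τ - 3 * L) ≤ y n := by
      have h6 : Real.exp (Ψ - 3 * τ - 3 * L) * Real.exp (3 * L) ≤ y n * Real.exp (3 * L) := by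
        rw [← Real.exp_add]
        refine le_of_eq_of_le ?_ hlow
        congr 1; ring
      exact le_of_mul_le_mul_right h6 (Real.exp_pos _)
    rw [← Real.le_log_iff_exp_le hyn] at h5
    linarith
  · rw [← Real.log_le_iff_le_exp hyn] at hupp
    linarith

theorem step (hK : Kes y D θ k0) (hy : ∀ k, 0 ≤ y k) (hD : 0 ≤ D) (hθ0 : 0 < θ) (hθ1 : θ < 1)
    {E ψ : ℕ → ℝ} {S : Set ℕ} {τ δ B : ℝ} (hE1 : ∀ n, 1 ≤ n → 1 ≤ E n) (hEm : Monotone E)
    (hE2 : ∀ n, 1 ≤ n → E (2 * n) ≤ 2 * E n)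
    (hEn : Tendsto (fun n : ℕ => E n / n) atTop (𝓝 0)) (hτ : 0 < τ) (hδ : 0 < δ) (hB : 0 ≤ B)
    (hψ : ∀ m n : ℕ, 1 ≤ m → m ≤ n → |ψ n - ψ m| ≤ B * ((n : ℝ) - m) / m)
    (hψ0 : Tendsto (fun n : ℕ => ψ n / n) atTop (𝓝 0))
    (hS : ∀ᶠ n : ℕ in atTop, ∃ k ∈ S, n ≤ k ∧ (k : ℝ) ≤ n + δ * √(n * E n))
    (hyS : ∀ᶠ k : ℕ in atTop, k ∈ S → 0 < y k ∧ |Real.log (y k) - ψ k| ≤ τ * E k) :
    ∀ᶠ n : ℕ in atTop, 0 < y n ∧
      |Real.log (y n) - ψ n| ≤ (9 * τ + 384 * D * δ ^ 2) * E n := by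
  obtain ⟨N1, hN1⟩ := eventually_atTop.1 hS
  obtain ⟨N2, hN2⟩ := eventually_atTop.1 hyS
  have hlθ : 0 < Real.log (1 / θ) := Real.log_pos (by rw [lt_div_iff₀ hθ0]; linarith)
  have ev1 : ∀ᶠ n : ℕ in atTop, δ * √(E n / n) ≤ 1 / 20 := by
    have h1 : Tendsto (fun n : ℕ => δ * √(E n / n)) atTop (𝓝 (δ * √0)) :=
      ((Real.continuous_sqrt.tendsto 0).comp hEn).const_mul δ
    rw [Real.sqrt_zero, mul_zero] at h1
    exact (h1.eventually_lt_const (by norm_num : (0 : ℝ) < 1 / 20)).mono fun _ h => h.le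
  have ev2 : ∀ᶠ n : ℕ in atTop, 16 * B * (δ * √(E n / n)) ≤ τ := by
    have h1 : Tendsto (fun n : ℕ => 16 * B * (δ * √(E n / n))) atTop
        (𝓝 (16 * B * (δ * √0))) :=
      (((Real.continuous_sqrt.tendsto 0).comp hEn).const_mul δ).const_mul _
    rw [Real.sqrt_zero, mul_zero, mul_zero] at h1
    exact (h1.eventually_lt_const hτ).mono fun _ h => h.le
  have ev3 : ∀ᶠ n : ℕ in atTop, 2 ≤ δ * √(n : ℝ) := by
    have h1 : Tendsto (fun n : ℕ => δ * √(n : ℝ)) atTop atTop :=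
      (Real.tendsto_sqrt_atTop.comp tendsto_natCast_atTop_atTop).const_mul_atTop hδ
    exact h1.eventually_ge_atTop 2
  have ev4 : ∀ᶠ n : ℕ in atTop, (9 * τ + 384 * D * δ ^ 2) * (E n / n) + |ψ n / n| ≤
      Real.log (1 / θ) := by
    have h1 : Tendsto (fun n : ℕ => (9 * τ + 384 * D * δ ^ 2) * (E n / n) + |ψ n / n|) atTop
        (𝓝 ((9 * τ + 384 * D * δ ^ 2) * 0 + |0|)) :=
      (hEn.const_mul _).add hψ0.abs
    rw [mul_zero, abs_zero, add_zero] at h1
    exact (h1.eventually_lt_const hlθ).mono fun _ h => h.le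
  filter_upwards [ev1, ev2, ev3, ev4, eventually_ge_atTop (2 * N1 + 2 * N2 + 2 * k0 + 4)]
    with n e1 e2 e3 e4 hn
  have hn0 : (0 : ℝ) < n := by
    have : 0 < n := by omega
    exact_mod_cast this
  have hEn1 : 1 ≤ E n := hE1 n (by omega)
  have hEn0 : 0 < E n := by linarith
  set G : ℝ := δ * √(n * E n) with hG
  have hGn : G = n * (δ * √(E n / n)) := by
    rw [hG]
    have h1 : (n : ℝ) * E n = n ^ 2 * (E n / n) := by field_simp
    rw [h1, Real.sqrt_mul (by positivity), Real.sqrt_sq hn0.le]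
    ring
  have hG20 : G ≤ n / 20 := by
    rw [hGn]
    have := mul_le_mul_of_nonneg_left e1 hn0.le
    linarith
  have hG2 : 2 ≤ G := by
    refine e3.trans ?_
    rw [hG]
    refine mul_le_mul_of_nonneg_left (Real.sqrt_le_sqrt ?_) hδ.le
    exact le_mul_of_one_le_right hn0.le hEn1
  have hGsq : G ^ 2 = δ ^ 2 * (n * E n) := by
    rw [hG, mul_pow, Real.sq_sqrt (by positivity)]
  have hmonoG : ∀ k : ℕ, k ≤ n → δ * √(k * E k) ≤ G := by
    intro k hk
    rw [hG]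
    refine mul_le_mul_of_nonneg_left (Real.sqrt_le_sqrt ?_) hδ.le
    have h1 : (k : ℝ) ≤ n := by exact_mod_cast hk
    calc (k : ℝ) * E k ≤ k * E n := mul_le_mul_of_nonneg_left (hEm hk) (Nat.cast_nonneg _)
      _ ≤ n * E n := mul_le_mul_of_nonneg_right h1 hEn0.le
  -- the three points
  set p2 : ℕ := ⌈2 * G⌉₊ with hp2
  set p1 : ℕ := ⌈6 * G⌉₊ with hp1
  have hp2a : 2 * G ≤ p2 := Nat.le_ceil _
  have hp2b : (p2 : ℝ) < 2 * G + 1 := Nat.ceil_lt_add_one (by linarith)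
  have hp1a : 6 * G ≤ p1 := Nat.le_ceil _
  have hp1b : (p1 : ℝ) < 6 * G + 1 := Nat.ceil_lt_add_one (by linarith)
  have hp1n : 2 * p1 ≤ n := by
    have : (2 : ℝ) * p1 ≤ n := by linarith
    exact_mod_cast this
  have hp2n : 2 * p2 ≤ n := by
    have : (2 : ℝ) * p2 ≤ n := by linarith
    exact_mod_cast this
  have hn1R : ((n - p1 : ℕ) : ℝ) = n - p1 := by rw [Nat.cast_sub (by omega)]
  have hn2R : ((n - p2 : ℕ) : ℝ) = n - p2 := by rw [Nat.cast_sub (by omega)]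
  obtain ⟨m3, hm3S, hm3a, hm3b⟩ := hN1 n (by omega)
  obtain ⟨m2, hm2S, hm2a, hm2b⟩ := hN1 (n - p2) (by omega)
  obtain ⟨m1, hm1S, hm1a, hm1b⟩ := hN1 (n - p1) (by omega)
  have hm2c : (m2 : ℝ) ≤ n - p2 + G := by
    have := hmonoG (n - p2) (by omega)
    rw [hn2R] at hm2b this
    linarith
  have hm1c : (m1 : ℝ) ≤ n - p1 + G := by
    have := hmonoG (n - p1) (by omega)
    rw [hn1R] at hm1b this
    linarith
  have hm1d : (n : ℝ) - p1 ≤ m1 := by rw [← hn1R]; exact_mod_cast hm1a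
  have hm2d : (n : ℝ) - p2 ≤ m2 := by rw [← hn2R]; exact_mod_cast hm2a
  have hm3d : (n : ℝ) ≤ m3 := by exact_mod_cast hm3a
  have h2n : m2 ≤ n := by
    have : (m2 : ℝ) ≤ n := by linarith
    exact_mod_cast this
  have h12 : m1 < m2 := by
    have : (m1 : ℝ) < m2 := by linarith
    exact_mod_cast this
  have hnm : n + m1 ≤ 2 * m2 := by
    have : (n : ℝ) + m1 ≤ 2 * m2 := by linarith
    exact_mod_cast this
  have hm1half : (n : ℝ) / 2 ≤ m1 := by linarith
  have hm1N : N2 + k0 + 2 ≤ m1 := by omega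
  have hm32 : m3 ≤ 2 * n := by
    have : (m3 : ℝ) ≤ 2 * n := by linarith
    exact_mod_cast this
  have hE3 : E m3 ≤ 2 * E n := (hEm hm32).trans (hE2 n (by omega))
  have hGn' : G / n = δ * √(E n / n) := by
    rw [hGn]; field_simp
  have hBG : 16 * B * (G / n) ≤ τ := by rw [hGn']; exact e2
  have hpsi : ∀ m : ℕ, m1 ≤ m → m ≤ m3 → |ψ m - ψ n| ≤ τ * E n := by
    intro m ha hb
    have hτE : τ ≤ τ * E n := le_mul_of_one_le_right hτ.le hEn1
    refine le_trans ?_ hτE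
    refine le_trans ?_ hBG
    have hmR1 : (m1 : ℝ) ≤ m := by exact_mod_cast ha
    have hmR3 : (m : ℝ) ≤ m3 := by exact_mod_cast hb
    rcases le_total m n with h | h
    · have h1 := hψ m n (by omega) h
      rw [abs_sub_comm] at h1
      refine h1.trans ?_
      have h2 : ((n : ℝ) - m) ≤ 8 * G := by linarith
      have h3 : (n : ℝ) / 2 ≤ m := hm1half.trans hmR1
      have h4 : (0 : ℝ) ≤ n - m := sub_nonneg.2 (by exact_mod_cast h)
      have hm0 : (0 : ℝ) < m := by linarith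
      rw [div_le_iff₀ hm0]
      have h5 : B * ((n : ℝ) - m) ≤ B * (8 * G) := mul_le_mul_of_nonneg_left h2 hB
      have h6 : B * (8 * G) = 16 * B * (G / n) * (n / 2) := by field_simp; ring
      rw [h6] at h5
      exact h5.trans (mul_le_mul_of_nonneg_left h3 (by positivity))
    · have h1 := hψ n m (by omega) h
      refine h1.trans ?_
      have h2 : ((m : ℝ) - n) ≤ G := by linarith
      rw [div_le_iff₀ hn0]
      have h5 : B * ((m : ℝ) - n) ≤ B * G := mul_le_mul_of_nonneg_left h2 hB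
      have h6 : 16 * B * (G / n) * n = 16 * (B * G) := by field_simp
      rw [h6]
      have : 0 ≤ B * G := by positivity
      linarith
  have good : ∀ m : ℕ, m ∈ S → m1 ≤ m → m ≤ m3 →
      0 < y m ∧ |Real.log (y m) - ψ n| ≤ 3 * τ * E n := by
    intro m hmS ha hb
    obtain ⟨h1, h2⟩ := hN2 m (by omega) hmS
    refine ⟨h1, ?_⟩
    have h3 := hpsi m ha hb
    have h4 : E m ≤ 2 * E n := (hEm hb).trans hE3
    have h5 : τ * E m ≤ τ * (2 * E n) := mul_le_mul_of_nonneg_left h4 hτ.le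
    calc |Real.log (y m) - ψ n| = |(Real.log (y m) - ψ m) + (ψ m - ψ n)| := by ring_nf
      _ ≤ |Real.log (y m) - ψ m| + |ψ m - ψ n| := abs_add_le _ _
      _ ≤ τ * (2 * E n) + τ * E n := add_le_add (h2.trans h5) h3
      _ = 3 * τ * E n := by ring
  set L : ℝ := 128 * D * δ ^ 2 * E n with hL
  have hLb : D * ((m3 : ℝ) - m1) ^ 2 / m1 ≤ L := by
    have hm10 : (0 : ℝ) < m1 := by linarith
    rw [div_le_iff₀ hm10]
    have h1 : (m3 : ℝ) - m1 ≤ 8 * G := by linarith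
    have h2 : (0 : ℝ) ≤ m3 - m1 := by
      have : (m2 : ℝ) ≤ n := by exact_mod_cast h2n
      have : (m1 : ℝ) ≤ m2 := by exact_mod_cast h12.le
      linarith
    have h3 : ((m3 : ℝ) - m1) ^ 2 ≤ (8 * G) ^ 2 := pow_le_pow_left₀ h2 h1 2
    calc D * ((m3 : ℝ) - m1) ^ 2 ≤ D * (8 * G) ^ 2 := mul_le_mul_of_nonneg_left h3 hD
      _ = 64 * D * G ^ 2 := by ring
      _ = (128 * D * δ ^ 2 * E n) * (n / 2) := by rw [hGsq]; ring
      _ ≤ L * m1 := mul_le_mul_of_nonneg_left hm1half (by positivity)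
  have hfin := sandwich (n := n) (m1 := m1) (m2 := m2) (m3 := m3) (Ψ := ψ n)
    (τ := 3 * τ * E n) (L := L) hK hy hD hθ0 hθ1 (by omega) (by omega) h12 h2n hm3a hnm
    (by positivity) (good m1 hm1S le_rfl (by omega)) (good m2 hm2S h12.le (by omega))
    (good m3 hm3S (by omega) le_rfl) hLb (by
      have h1 : n * Real.log (1 / θ) ≤ 2 * m1 * Real.log (1 / θ) :=
        mul_le_mul_of_nonneg_right (by linarith) hlθ.le
      refine le_trans ?_ h1
      have h2 := mul_le_mul_of_nonneg_left e4 hn0.le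
      refine le_trans ?_ h2
      have h3 : (n : ℝ) * ((9 * τ + 384 * D * δ ^ 2) * (E n / n) + |ψ n / n|) =
          (9 * τ + 384 * D * δ ^ 2) * E n + |ψ n| := by
        rw [abs_div, abs_of_pos hn0]
        field_simp
      rw [h3, hL]
      have h4 : -ψ n ≤ |ψ n| := neg_le_abs _
      nlinarith)
  refine ⟨hfin.1, hfin.2.trans (le_of_eq ?_)⟩
  rw [hL]
  ring

end TH966.KS
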