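import Mathlib

/-!
# Sequences that satisfy Kesten's inequality: two-sided control between sparse points
-/

set_option autoImplicit false

namespace TH966.KS

open Finset Filter Topology

/-- Kesten's inequality from the index `k0` on, above the threshold `θ ^ (2 k)` -/
def Kes (y : ℕ → ℝ) (D θ : ℝ) (k0 : ℕ) : Prop :=
  ∀ k, k0 ≤ k → θ ^ (2 * k + 2) ≤ y (k + 1) → y (k + 1) ^ 2 ≤ y k * y (k + 2) * (1 + D / k)

variable {y : ℕ → ℝ} {D θ g : ℝ} {k0 : ℕ}

theorem g_anti (hD : 0 ≤ D) {b k : ℕ} (hb0 : 0 < b) (hbk : b ≤ k) (hg : 1 + D / b ≤ g) :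
    1 + D / k ≤ g := by
  have h1 : (0 : ℝ) < b := by exact_mod_cast hb0
  have h2 : (b : ℝ) ≤ k := by exact_mod_cast hbk
  have : D / k ≤ D / b := div_le_div_of_nonneg_left hD h1 h2
  linarith

/-- forward propagation of a lower bound of the ratio -/
theorem fwd (hK : Kes y D θ k0) (hy : ∀ k, 0 ≤ y k) (hD : 0 ≤ D) (hθ0 : 0 < θ) (hθ1 : θ < 1)
    {k J : ℕ} {ρ : ℝ} (hk : k0 ≤ k) (hkp : 0 < k) (hg : 1 + D / k ≤ g) (hρ0 : 0 < ρ)
    (hρ1 : ρ ≤ 1) (hyk : 0 < y k) (h1 : ρ * y k ≤ y (k + 1))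
    (hth : θ ^ (2 * k) * g ^ (J ^ 2) ≤ y k * ρ ^ J) :
    ∀ j, j ≤ J → y k * ρ ^ j ≤ y (k + j) * g ^ (j ^ 2) ∧
      ρ * y (k + j) ≤ y (k + j + 1) * g ^ j := by
  have hg1 : 1 ≤ g := by
    have : 0 ≤ D / k := by positivity
    linarith
  have hg0 : 0 < g := by linarith
  intro j
  induction j with
  | zero => intro _; simpa using h1
  | succ j ih =>
    intro hj
    obtain ⟨i1, i2⟩ := ih (by omega)
    have a0 : 0 < y (k + j) := by
      have : 0 < y (k + j) * g ^ (j ^ 2) := lt_of_lt_of_le (by positivity) i1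
      exact pos_of_mul_pos_left this (by positivity)
    have a1 : y k * ρ ^ (j + 1) ≤ y (k + j + 1) * g ^ ((j + 1) ^ 2) := by
      calc y k * ρ ^ (j + 1) = (y k * ρ ^ j) * ρ := by ring
        _ ≤ (y (k + j) * g ^ (j ^ 2)) * ρ := mul_le_mul_of_nonneg_right i1 hρ0.le
        _ = (ρ * y (k + j)) * g ^ (j ^ 2) := by ring
        _ ≤ (y (k + j + 1) * g ^ j) * g ^ (j ^ 2) := mul_le_mul_of_nonneg_right i2 (by positivity)
        _ = y (k + j + 1) * g ^ (j + j ^ 2) := by rw [pow_add]; ring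
        _ ≤ y (k + j + 1) * g ^ ((j + 1) ^ 2) :=
          mul_le_mul_of_nonneg_left (pow_le_pow_right₀ hg1 (by nlinarith)) (hy _)
    have a2 : 0 < y (k + j + 1) := by
      have : 0 < y (k + j + 1) * g ^ ((j + 1) ^ 2) := lt_of_lt_of_le (by positivity) a1
      exact pos_of_mul_pos_left this (by positivity)
    have a3 : θ ^ (2 * (k + j) + 2) ≤ y (k + j + 1) := by
      have b1 : θ ^ (2 * k) * g ^ (J ^ 2) ≤ y (k + j + 1) * g ^ (J ^ 2) := by
        refine hth.trans ?_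
        calc y k * ρ ^ J ≤ y k * ρ ^ (j + 1) :=
              mul_le_mul_of_nonneg_left (pow_le_pow_of_le_one hρ0.le hρ1 hj) hyk.le
          _ ≤ y (k + j + 1) * g ^ ((j + 1) ^ 2) := a1
          _ ≤ y (k + j + 1) * g ^ (J ^ 2) :=
            mul_le_mul_of_nonneg_left (pow_le_pow_right₀ hg1 (Nat.pow_le_pow_left hj 2)) (hy _)
      have b2 : θ ^ (2 * k) ≤ y (k + j + 1) := le_of_mul_le_mul_right b1 (by positivity)
      exact (pow_le_pow_of_le_one hθ0.le hθ1.le (by omega)).trans b2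
    have a4 := hK (k + j) (by omega) a3
    have a5 : (1 + D / ((k + j : ℕ) : ℝ)) ≤ g := g_anti hD hkp (by omega) hg
    have a6 : y (k + j + 1) ^ 2 ≤ y (k + j) * y (k + j + 2) * g :=
      a4.trans (mul_le_mul_of_nonneg_left a5 (mul_nonneg (hy _) (hy _)))
    refine ⟨by simpa [add_assoc] using a1, ?_⟩
    have e1 : k + (j + 1) = k + j + 1 := by ring
    have e2 : k + j + 1 + 1 = k + j + 2 := by ring
    rw [e1, e2]
    have a7 : y (k + j) * (ρ * y (k + j + 1)) ≤ y (k + j) * (y (k + j + 2) * g ^ (j + 1)) := by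
      calc y (k + j) * (ρ * y (k + j + 1)) = (ρ * y (k + j)) * y (k + j + 1) := by ring
        _ ≤ (y (k + j + 1) * g ^ j) * y (k + j + 1) := mul_le_mul_of_nonneg_right i2 (hy _)
        _ = y (k + j + 1) ^ 2 * g ^ j := by ring
        _ ≤ (y (k + j) * y (k + j + 2) * g) * g ^ j :=
          mul_le_mul_of_nonneg_right a6 (by positivity)
        _ = y (k + j) * (y (k + j + 2) * g ^ (j + 1)) := by ring
    exact le_of_mul_le_mul_left a7 a0

/-- backward propagation of an upper bound of the ratio -/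
theorem bwd (hK : Kes y D θ k0) (hy : ∀ k, 0 ≤ y k) (hD : 0 ≤ D) (hθ0 : 0 < θ) (hθ1 : θ < 1)
    {b a : ℕ} {σ : ℝ} (hb : k0 ≤ b) (hbp : 0 < b) (hg : 1 + D / b ≤ g) (hσ0 : 0 < σ)
    (hσ1 : σ ≤ 1) (hyk : 0 < y (b + a)) (h1 : 0 < a → y (b + a) ≤ σ * y (b + a - 1))
    (hth : θ ^ (2 * b) * g ^ (a ^ 2) ≤ y (b + a)) :
    ∀ i j, i + j = a → y (b + a) ≤ σ ^ i * g ^ (i ^ 2) * y (b + j) ∧
      (0 < j → y (b + j) ≤ σ * g ^ i * y (b + j - 1)) := by
  have hg1 : 1 ≤ g := by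
    have : 0 ≤ D / b := by positivity
    linarith
  have hg0 : 0 < g := by linarith
  intro i
  induction i with
  | zero =>
    intro j hj
    rw [zero_add] at hj
    subst hj
    simpa using h1
  | succ i ih =>
    intro j hj
    obtain ⟨i1, i2⟩ := ih (j + 1) (by omega)
    have i3 := i2 (by omega)
    have e0 : b + (j + 1) - 1 = b + j := by omega
    rw [e0] at i3
    have a1 : y (b + a) ≤ σ ^ (i + 1) * g ^ ((i + 1) ^ 2) * y (b + j) := by
      calc y (b + a) ≤ σ ^ i * g ^ (i ^ 2) * y (b + (j + 1)) := i1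
        _ ≤ σ ^ i * g ^ (i ^ 2) * (σ * g ^ i * y (b + j)) :=
          mul_le_mul_of_nonneg_left i3 (by positivity)
        _ = σ ^ (i + 1) * g ^ (i ^ 2 + i) * y (b + j) := by rw [pow_add, pow_succ]; ring
        _ ≤ σ ^ (i + 1) * g ^ ((i + 1) ^ 2) * y (b + j) := by
          refine mul_le_mul_of_nonneg_right (mul_le_mul_of_nonneg_left
            (pow_le_pow_right₀ hg1 (by nlinarith)) (by positivity)) (hy _)
    have a2 : 0 < y (b + j) := by
      have h : 0 < σ ^ (i + 1) * g ^ ((i + 1) ^ 2) * y (b + j) := lt_of_lt_of_le hyk a1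
      exact pos_of_mul_pos_right h (by positivity)
    refine ⟨a1, fun hj0 => ?_⟩
    obtain ⟨l, rfl⟩ : ∃ l, j = l + 1 := ⟨j - 1, by omega⟩
    have e1 : b + (l + 1) - 1 = b + l := by omega
    rw [e1]
    have a3 : θ ^ (2 * (b + l) + 2) ≤ y (b + l + 1) := by
      have b1 : θ ^ (2 * b) * g ^ (a ^ 2) ≤ y (b + l + 1) * g ^ (a ^ 2) := by
        refine hth.trans (a1.trans ?_)
        calc σ ^ (i + 1) * g ^ ((i + 1) ^ 2) * y (b + (l + 1))
            ≤ 1 * g ^ (a ^ 2) * y (b + (l + 1)) := by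
              refine mul_le_mul_of_nonneg_right (mul_le_mul (pow_le_one₀ hσ0.le hσ1)
                (pow_le_pow_right₀ hg1 (Nat.pow_le_pow_left (by omega) 2)) (by positivity)
                (by norm_num)) (hy _)
          _ = y (b + l + 1) * g ^ (a ^ 2) := by rw [one_mul, mul_comm]; rfl
      have b2 : θ ^ (2 * b) ≤ y (b + l + 1) := le_of_mul_le_mul_right b1 (by positivity)
      exact (pow_le_pow_of_le_one hθ0.le hθ1.le (by omega)).trans b2
    have a4 := hK (b + l) (by omega) a3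
    have a5 : (1 + D / ((b + l : ℕ) : ℝ)) ≤ g := g_anti hD hbp (by omega) hg
    have a6 : y (b + l + 1) ^ 2 ≤ y (b + l) * y (b + l + 2) * g :=
      a4.trans (mul_le_mul_of_nonneg_left a5 (mul_nonneg (hy _) (hy _)))
    have e2 : b + (l + 1 + 1) = b + l + 2 := by ring
    have e3 : b + (l + 1) = b + l + 1 := by ring
    rw [e2, e3] at i3
    rw [e3] at a2 ⊢
    have a7 : y (b + l + 1) * y (b + l + 1) ≤ (σ * g ^ (i + 1) * y (b + l)) * y (b + l + 1) := by
      calc y (b + l + 1) * y (b + l + 1) = y (b + l + 1) ^ 2 := by ring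
        _ ≤ y (b + l) * y (b + l + 2) * g := a6
        _ ≤ y (b + l) * (σ * g ^ i * y (b + l + 1)) * g :=
          mul_le_mul_of_nonneg_right (mul_le_mul_of_nonneg_left i3 (hy _)) hg0.le
        _ = (σ * g ^ (i + 1) * y (b + l)) * y (b + l + 1) := by ring
    exact le_of_mul_le_mul_right a7 a2

/-- lower bound to the right of the good points `b < b + a` -/
theorem low (hK : Kes y D θ k0) (hy : ∀ k, 0 ≤ y k) (hD : 0 ≤ D) (hθ0 : 0 < θ) (hθ1 : θ < 1)
    {b a : ℕ} (hb : k0 ≤ b) (hbp : 0 < b) (ha : 0 < a) (hg : 1 + D / b ≤ g) (hyb : 0 < y b)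
    (hyk : 0 < y (b + a))
    (hth : θ ^ (2 * b) * g ^ (3 * a ^ 2) ≤ y (b + a) * min 1 (y (b + a) / y b)) :
    ∀ j, j ≤ a → y (b + a) * min 1 (y (b + a) / y b) ≤ y (b + a + j) * g ^ (3 * a ^ 2) := by
  have hg1 : 1 ≤ g := by
    have : 0 ≤ D / b := by positivity
    linarith
  have hg0 : 0 < g := by linarith
  set Y : ℝ := y (b + a) with hY
  set R : ℝ := min 1 (Y / y b) with hR
  have hR0 : 0 < R := lt_min one_pos (div_pos hyk hyb)
  have hR1 : R ≤ 1 := min_le_left _ _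
  have hthY : θ ^ (2 * b) * g ^ (a ^ 2) ≤ Y := by
    have h1 : g ^ (a ^ 2) ≤ g ^ (3 * a ^ 2) := pow_le_pow_right₀ hg1 (by nlinarith)
    calc θ ^ (2 * b) * g ^ (a ^ 2) ≤ θ ^ (2 * b) * g ^ (3 * a ^ 2) :=
          mul_le_mul_of_nonneg_left h1 (by positivity)
      _ ≤ Y * R := hth
      _ ≤ Y * 1 := mul_le_mul_of_nonneg_left hR1 hyk.le
      _ = Y := mul_one _
  obtain ⟨m, hm⟩ : ∃ m, b + a = m + 1 := ⟨b + a - 1, by omega⟩
  have hθY : θ ^ (2 * m + 2) ≤ y (m + 1) := by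
    rw [← hm]
    have h1 : θ ^ (2 * b) ≤ Y := by
      refine le_trans ?_ hthY
      exact le_mul_of_one_le_right (by positivity) (one_le_pow₀ hg1)
    exact (pow_le_pow_of_le_one hθ0.le hθ1.le (by omega)).trans h1
  have hKm := hK m (by omega) hθY
  have hgm : (1 + D / (m : ℝ)) ≤ g := g_anti hD hbp (by omega) hg
  have hc : Y ^ 2 ≤ y m * y (b + a + 1) * g := by
    have h1 := hKm.trans (mul_le_mul_of_nonneg_left hgm (mul_nonneg (hy _) (hy _)))
    rw [← hm, show m + 2 = b + a + 1 by omega] at h1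
    exact h1
  -- the ratio `σ`
  obtain ⟨σ, hσ0, hσ1, hσ2, hσ3⟩ : ∃ σ : ℝ, 0 < σ ∧ σ ≤ 1 ∧ σ * Y ≤ y (b + a + 1) * g ∧
      R ≤ σ ^ a * g ^ (a ^ 2) := by
    rcases le_or_gt (y m) Y with h | h
    · refine ⟨1, one_pos, le_rfl, ?_, ?_⟩
      · rw [one_mul]
        have h2 : Y * Y ≤ Y * (y (b + a + 1) * g) := by
          calc Y * Y = Y ^ 2 := by ring
            _ ≤ y m * y (b + a + 1) * g := hc
            _ ≤ Y * y (b + a + 1) * g :=
              mul_le_mul_of_nonneg_right (mul_le_mul_of_nonneg_right h (hy _)) hg0.le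
            _ = Y * (y (b + a + 1) * g) := by ring
        exact le_of_mul_le_mul_left h2 hyk
      · rw [one_pow, one_mul]
        exact hR1.trans (one_le_pow₀ hg1)
    · have hm0 : 0 < y m := hyk.trans h
      refine ⟨Y / y m, div_pos hyk hm0, (div_le_one hm0).2 h.le, ?_, ?_⟩
      · rw [div_mul_eq_mul_div, div_le_iff₀ hm0]
        calc Y * Y = Y ^ 2 := by ring
          _ ≤ y m * y (b + a + 1) * g := hc
          _ = y (b + a + 1) * g * y m := by ring
      · have h3 := (bwd (a := a) (σ := Y / y m) hK hy hD hθ0 hθ1 hb hbp hg (div_pos hyk hm0)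
          ((div_le_one hm0).2 h.le) hyk (fun _ => by
            rw [show b + a - 1 = m by omega, div_mul_cancel₀ _ hm0.ne']) hthY a 0 (by omega)).1
        rw [add_zero] at h3
        have h4 : Y / y b ≤ (Y / y m) ^ a * g ^ (a ^ 2) := by
          rw [div_le_iff₀ hyb]
          exact h3
        exact (min_le_right _ _).trans h4
  have hρ0 : 0 < σ / g := div_pos hσ0 hg0
  have hρ1 : σ / g ≤ 1 := (div_le_one hg0).2 (hσ1.trans hg1)
  have key : ∀ j, j ≤ a → R ≤ (σ / g) ^ j * g ^ (a ^ 2 + j) := by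
    intro j hj
    have h1 : (σ / g) ^ j * g ^ (a ^ 2 + j) = σ ^ j * g ^ (a ^ 2) := by
      rw [div_pow, pow_add]
      field_simp
    rw [h1]
    exact hσ3.trans (mul_le_mul_of_nonneg_right (pow_le_pow_of_le_one hσ0.le hσ1 hj)
      (by positivity))
  intro j hj
  have hthf : θ ^ (2 * (b + a)) * g ^ (a ^ 2) ≤ Y * (σ / g) ^ a := by
    have h1 := key a le_rfl
    have h2 : θ ^ (2 * b) * g ^ (3 * a ^ 2) ≤ (Y * (σ / g) ^ a) * g ^ (a ^ 2 + a) := by
      refine hth.trans ?_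
      calc Y * R ≤ Y * ((σ / g) ^ a * g ^ (a ^ 2 + a)) := mul_le_mul_of_nonneg_left h1 hyk.le
        _ = _ := by ring
    have h3 : (θ ^ (2 * b) * g ^ (a ^ 2)) * g ^ (a ^ 2 + a) ≤
        (Y * (σ / g) ^ a) * g ^ (a ^ 2 + a) := by
      refine le_trans ?_ h2
      rw [mul_assoc, ← pow_add]
      refine mul_le_mul_of_nonneg_left (pow_le_pow_right₀ hg1 (by nlinarith)) (by positivity)
    have h4 : θ ^ (2 * b) * g ^ (a ^ 2) ≤ Y * (σ / g) ^ a :=
      le_of_mul_le_mul_right h3 (by positivity)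
    refine le_trans ?_ h4
    exact mul_le_mul_of_nonneg_right (pow_le_pow_of_le_one hθ0.le hθ1.le (by omega))
      (by positivity)
  have h5 := (fwd (k := b + a) (J := a) (ρ := σ / g) hK hy hD hθ0 hθ1 (by omega) (by omega)
    (g_anti hD hbp (by omega) hg) hρ0 hρ1 hyk (by
      rw [div_mul_eq_mul_div, div_le_iff₀ hg0]
      exact hσ2) hthf j hj).1
  calc Y * R ≤ Y * ((σ / g) ^ j * g ^ (a ^ 2 + j)) := mul_le_mul_of_nonneg_left (key j hj) hyk.le
    _ = (Y * (σ / g) ^ j) * g ^ (a ^ 2 + j) := by ring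
    _ ≤ (y (b + a + j) * g ^ (j ^ 2)) * g ^ (a ^ 2 + j) :=
      mul_le_mul_of_nonneg_right h5 (by positivity)
    _ = y (b + a + j) * g ^ (j ^ 2 + (a ^ 2 + j)) := by rw [mul_assoc, ← pow_add]
    _ ≤ y (b + a + j) * g ^ (3 * a ^ 2) := by
      refine mul_le_mul_of_nonneg_left (pow_le_pow_right₀ hg1 ?_) (hy _)
      have : j ^ 2 ≤ a ^ 2 := Nat.pow_le_pow_left hj 2
      nlinarith

/-- upper bound between the good points `m` and `m + b` -/
theorem upp (hK : Kes y D θ k0) (hy : ∀ k, 0 ≤ y k) (hD : 0 ≤ D) (hθ0 : 0 < θ) (hθ1 : θ < 1)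
    {m b : ℕ} (hb : k0 ≤ m) (hbp : 0 < m) (hg : 1 + D / m ≤ g) (hym : 0 < y m)
    (hth : θ ^ (2 * m) * g ^ (2 * b ^ 2) ≤ y m) :
    ∀ n, m ≤ n → n ≤ m + b → y n ≤ max (y m) (y (m + b) * g ^ (2 * b ^ 2)) := by
  have hg1 : 1 ≤ g := by
    have : 0 ≤ D / m := by positivity
    linarith
  have hg0 : 0 < g := by linarith
  intro n hmn hnb
  obtain ⟨s, hs, hmax⟩ := Finset.exists_max_image (Finset.Icc m (m + b)) y
    ⟨m, Finset.mem_Icc.2 ⟨le_rfl, by omega⟩⟩
  rw [Finset.mem_Icc] at hs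
  refine (hmax n (Finset.mem_Icc.2 ⟨hmn, hnb⟩)).trans ?_
  rcases Nat.eq_or_lt_of_le hs.1 with h | h
  · rw [← h]; exact le_max_left _ _
  · refine le_trans ?_ (le_max_right _ _)
    obtain ⟨k, rfl⟩ : ∃ k, s = k + 1 := ⟨s - 1, by omega⟩
    have h1 : y m ≤ y (k + 1) := hmax m (Finset.mem_Icc.2 ⟨le_rfl, by omega⟩)
    have h2 : y k ≤ y (k + 1) := hmax k (Finset.mem_Icc.2 ⟨by omega, by omega⟩)
    have h0 : 0 < y (k + 1) := lt_of_lt_of_le hym h1
    have hθm : θ ^ (2 * m) ≤ y (k + 1) := by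
      refine le_trans ?_ (hth.trans h1)
      exact le_mul_of_one_le_right (by positivity) (one_le_pow₀ hg1)
    have h3 := hK k (by omega) ((pow_le_pow_of_le_one hθ0.le hθ1.le (by omega)).trans hθm)
    have h4 : y (k + 1) ≤ y (k + 2) * g := by
      have h5 : y (k + 1) * y (k + 1) ≤ y (k + 1) * (y (k + 2) * g) := by
        calc y (k + 1) * y (k + 1) = y (k + 1) ^ 2 := by ring
          _ ≤ y k * y (k + 2) * (1 + D / k) := h3
          _ ≤ y k * y (k + 2) * g := mul_le_mul_of_nonneg_left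
            (g_anti hD hbp (by omega) hg) (mul_nonneg (hy _) (hy _))
          _ ≤ y (k + 1) * y (k + 2) * g := mul_le_mul_of_nonneg_right
            (mul_le_mul_of_nonneg_right h2 (hy _)) hg0.le
          _ = _ := by ring
      exact le_of_mul_le_mul_left h5 h0
    obtain ⟨J, hJ⟩ : ∃ J, k + 1 + J = m + b := ⟨m + b - (k + 1), by omega⟩
    have hJb : J ≤ b := by omega
    have hpow : g ^ (J ^ 2 + J) ≤ g ^ (2 * b ^ 2) := by
      refine pow_le_pow_right₀ hg1 ?_
      have : J ^ 2 ≤ b ^ 2 := Nat.pow_le_pow_left hJb 2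
      nlinarith
    have hgJ : (1 / g) ^ J * g ^ J = 1 := by
      rw [← mul_pow, one_div, inv_mul_cancel₀ hg0.ne', one_pow]
    have h6 := (fwd (k := k + 1) (J := J) (ρ := 1 / g) hK hy hD hθ0 hθ1 (by omega) (by omega)
      (g_anti hD hbp (by omega) hg) (by positivity) ((div_le_one hg0).2 hg1) h0 (by
        rw [div_mul_eq_mul_div, div_le_iff₀ hg0, one_mul]
        exact h4) (by
        have h7 : θ ^ (2 * (k + 1)) * g ^ (J ^ 2 + J) ≤ y (k + 1) := by
          calc θ ^ (2 * (k + 1)) * g ^ (J ^ 2 + J) ≤ θ ^ (2 * m) * g ^ (2 * b ^ 2) :=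
                mul_le_mul (pow_le_pow_of_le_one hθ0.le hθ1.le (by omega)) hpow
                  (by positivity) (by positivity)
            _ ≤ y m := hth
            _ ≤ y (k + 1) := h1
        calc θ ^ (2 * (k + 1)) * g ^ (J ^ 2)
            = (θ ^ (2 * (k + 1)) * g ^ (J ^ 2 + J)) * (1 / g) ^ J := by
              rw [pow_add]
              calc θ ^ (2 * (k + 1)) * g ^ (J ^ 2)
                  = θ ^ (2 * (k + 1)) * g ^ (J ^ 2) * ((1 / g) ^ J * g ^ J) := by
                    rw [hgJ, mul_one]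
                _ = _ := by ring
          _ ≤ y (k + 1) * (1 / g) ^ J := mul_le_mul_of_nonneg_right h7 (by positivity)) J le_rfl).1
    rw [hJ] at h6
    calc y (k + 1) = (y (k + 1) * (1 / g) ^ J) * g ^ J := by
          rw [mul_assoc, hgJ, mul_one]
      _ ≤ (y (m + b) * g ^ (J ^ 2)) * g ^ J := mul_le_mul_of_nonneg_right h6 (by positivity)
      _ = y (m + b) * g ^ (J ^ 2 + J) := by rw [pow_add]; ring
      _ ≤ y (m + b) * g ^ (2 * b ^ 2) := mul_le_mul_of_nonneg_left hpow (hy _)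

end TH966.KS
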