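import Pool.Agent.TH966.KS.Rate

/-!
# The rate of convergence of the ratios: classes of knot types closed under connected sums
-/

set_option autoImplicit false

namespace TH966.KS

open Finset Filter Topology KN

theorem yq_super (Q : List Dir → Prop) (hQ : KClass Q) (hc : CSum Q) (hμ : 0 < gr Q) {n m : ℕ}
    (hn : 0 < n) (hm : 0 < m) : yq Q n * yq Q m ≤ 16 * yq Q (n + m) := by
  have hmain : ∀ n m : ℕ, 0 < n → 0 < m → m ≤ n → yq Q n * yq Q m ≤ 16 * yq Q (n + m) := by
    intro n m hn hm hmn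
    have h := GEN.super Q hQ hc (2 * n) (2 * m)
    have h' : (a Q (2 * n) : ℝ) * a Q (2 * m) ≤ 16 * (2 * m) * a Q (2 * n + 2 * m) := by
      exact_mod_cast h
    rw [show 2 * n + 2 * m = 2 * (n + m) by ring, GEN.a_eq Q n hn, GEN.a_eq Q m hm,
      GEN.a_eq Q (n + m) (by omega)] at h'
    have hn0 : (0 : ℝ) < n := by exact_mod_cast hn
    have hm0 : (0 : ℝ) < m := by exact_mod_cast hm
    have hmn' : (m : ℝ) ≤ n := by exact_mod_cast hmn
    have hp : 0 ≤ pq Q (2 * (n + m)) := GEN.pn_nonneg Q _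
    have h1 : pq Q (2 * n) * pq Q (2 * m) ≤ 16 * pq Q (2 * (n + m)) := by
      have h2 : (pq Q (2 * n) * pq Q (2 * m)) * (16 * n * m) ≤
          (16 * pq Q (2 * (n + m))) * (16 * n * m) := by
        push_cast at h'
        have h3 : pq Q (2 * (n + m)) * ((n : ℝ) + m) ≤ pq Q (2 * (n + m)) * (2 * n) :=
          mul_le_mul_of_nonneg_left (by linarith) hp
        have h4 := mul_le_mul_of_nonneg_right h3 (show (0 : ℝ) ≤ 128 * m by positivity)
        nlinarith
      exact le_of_mul_le_mul_right h2 (by positivity)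
    unfold yq
    have hg : gr Q ^ (2 * (n + m)) = gr Q ^ (2 * n) * gr Q ^ (2 * m) := by
      rw [← pow_add]; congr 1; ring
    rw [hg, div_mul_div_comm, ← mul_div_assoc]
    exact div_le_div_of_nonneg_right h1 (by positivity)
  rcases le_total m n with h | h
  · exact hmain n m hn hm h
  · rw [mul_comm, add_comm n m]
    exact hmain m n hm hn h

theorem yq_log (Q : List Dir → Prop) (hQ : KClass Q) (hne : ∃ w, SAP w ∧ Q w) (hc : CSum Q) :
    Tendsto (fun k : ℕ => Real.log (yq Q k) / k) atTop (𝓝 0) := by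
  obtain ⟨h1, -, -⟩ := gr_bounds Q hQ hne
  have hμ : 0 < gr Q := by linarith
  have h2 := (class_sum Q hQ hne hc).1
  have h3 : Tendsto (fun j : ℕ => 2 * Real.log ((pq Q (2 * j)) ^ (1 / (2 * j : ℝ))) -
      2 * Real.log (gr Q)) atTop (𝓝 (2 * Real.log (gr Q) - 2 * Real.log (gr Q))) :=
    ((h2.log hμ.ne').const_mul 2).sub_const _
  rw [sub_self] at h3
  refine h3.congr' ?_
  filter_upwards [class_pos Q hQ hne, eventually_gt_atTop 0] with k h4 h5
  have hk : (0 : ℝ) < k := by exact_mod_cast h5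
  unfold yq
  rw [Real.log_rpow h4, Real.log_div h4.ne' (pow_pos hμ _).ne', Real.log_pow]
  push_cast
  field_simp

theorem yq_bdd (Q : List Dir → Prop) (hQ : KClass Q) (hne : ∃ w, SAP w ∧ Q w) (hc : CSum Q)
    (n : ℕ) (hn : 0 < n) : yq Q n ≤ 16 := by
  obtain ⟨h1, -, -⟩ := gr_bounds Q hQ hne
  have hμ : 0 < gr Q := by linarith
  by_contra hcon
  have hcon' : 16 < yq Q n := not_le.1 hcon
  have hn0 : (0 : ℝ) < n := by exact_mod_cast hn
  have hpow : ∀ j : ℕ, (yq Q n / 16) ^ (j + 1) ≤ yq Q ((j + 1) * n) / 16 := by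
    intro j
    induction j with
    | zero => simp
    | succ j ih =>
      have h2 := yq_super Q hQ hc hμ (show 0 < (j + 1) * n by positivity) hn
      have h3 : (j + 1) * n + n = (j + 1 + 1) * n := by ring
      rw [h3] at h2
      calc (yq Q n / 16) ^ (j + 1 + 1) = (yq Q n / 16) ^ (j + 1) * (yq Q n / 16) := pow_succ _ _
        _ ≤ yq Q ((j + 1) * n) / 16 * (yq Q n / 16) :=
          mul_le_mul_of_nonneg_right ih (by linarith)
        _ = (yq Q ((j + 1) * n) * yq Q n) / 16 / 16 := by ring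
        _ ≤ (16 * yq Q ((j + 1 + 1) * n)) / 16 / 16 := by
          refine div_le_div_of_nonneg_right (div_le_div_of_nonneg_right h2 (by norm_num))
            (by norm_num)
        _ = _ := by ring
  have hq : 1 < yq Q n / 16 := by rw [lt_div_iff₀ (by norm_num)]; linarith
  set δ : ℝ := Real.log (yq Q n / 16) / n with hδ
  have hδ0 : 0 < δ := div_pos (Real.log_pos hq) hn0
  have ht : Tendsto (fun j : ℕ => (j + 1) * n) atTop atTop :=
    tendsto_atTop_mono (fun j => by
      have h6 : j + 1 ≤ (j + 1) * n := Nat.le_mul_of_pos_right _ hn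
      simp only [id]
      omega) (tendsto_id)
  obtain ⟨j, hj⟩ := ((((yq_log Q hQ hne hc).comp ht).eventually_lt_const hδ0)).exists
  simp only [Function.comp_apply] at hj
  have h4 : Real.log ((yq Q n / 16) ^ (j + 1)) ≤ Real.log (yq Q ((j + 1) * n)) := by
    refine Real.log_le_log (by positivity) ((hpow j).trans ?_)
    have : 0 ≤ yq Q ((j + 1) * n) := yq_nonneg Q hμ.le _
    linarith
  rw [Real.log_pow] at h4
  have hjn : (0 : ℝ) < (((j + 1) * n : ℕ) : ℝ) := by exact_mod_cast (show 0 < (j + 1) * n by positivity)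
  rw [div_lt_iff₀ hjn] at hj
  have h5 : δ * (((j + 1) * n : ℕ) : ℝ) = ((j + 1 : ℕ) : ℝ) * Real.log (yq Q n / 16) := by
    rw [hδ]
    push_cast
    field_simp
  linarith

theorem rate_class (Q : List Dir → Prop) (hQ : KClass Q) (hne : ∃ w, SAP w ∧ Q w)
    (hc : CSum Q) : ∃ R : ℝ, ∀ᶠ k : ℕ in atTop,
      |pq Q (2 * k + 2) / pq Q (2 * k) - gr Q ^ 2| ≤
        R * √((1 + |Real.log (pq Q (2 * k) / gr Q ^ (2 * k))|) / (2 * k)) := by
  obtain ⟨D, θ, k0, hD, hθ0, hθ1, hK⟩ := kes_yq Q hQ hne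
  obtain ⟨h1, -, -⟩ := gr_bounds Q hQ hne
  have hμ : 0 < gr Q := by linarith
  have hpos : ∀ᶠ k : ℕ in atTop, 0 < yq Q k := by
    filter_upwards [class_pos Q hQ hne] with k hk
    exact div_pos hk (pow_pos hμ _)
  obtain ⟨R, hR⟩ := rate hK (yq_nonneg Q hμ.le) hD hθ0 hθ1 (M := 16) (by
    filter_upwards [eventually_gt_atTop 0] with k hk
    exact yq_bdd Q hQ hne hc k hk) hpos (yq_log Q hQ hne hc)
  refine ⟨gr Q ^ 2 * R * √2, ?_⟩
  filter_upwards [hR, hpos, eventually_gt_atTop 0] with k h2 h3 h4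
  have hk : (0 : ℝ) < k := by exact_mod_cast h4
  have h5 : pq Q (2 * k + 2) / pq Q (2 * k) - gr Q ^ 2 =
      gr Q ^ 2 * (yq Q (k + 1) / yq Q k - 1) := by
    have e1 : 2 * (k + 1) = 2 * k + 2 := by ring
    have h6 : yq Q k ≠ 0 := h3.ne'
    have h7 : pq Q (2 * k) = yq Q k * gr Q ^ (2 * k) := by
      unfold yq; rw [div_mul_cancel₀ _ (pow_pos hμ _).ne']
    have h8 : pq Q (2 * k + 2) = yq Q (k + 1) * gr Q ^ (2 * k + 2) := by
      unfold yq; rw [e1, div_mul_cancel₀ _ (pow_pos hμ _).ne']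
    rw [h7, h8, pow_add]
    have := (pow_pos hμ (2 * k)).ne'
    field_simp
  have h9 : √((1 + |Real.log (yq Q k)|) / k) =
      √2 * √((1 + |Real.log (yq Q k)|) / (2 * k)) := by
    rw [← Real.sqrt_mul (by norm_num)]
    congr 1
    field_simp
  rw [h5, abs_mul, abs_of_pos (pow_pos hμ 2)]
  calc gr Q ^ 2 * |yq Q (k + 1) / yq Q k - 1| ≤
        gr Q ^ 2 * (R * √((1 + |Real.log (yq Q k)|) / k)) :=
        mul_le_mul_of_nonneg_left h2 (by positivity)
    _ = gr Q ^ 2 * R * √2 * √((1 + |Real.log (yq Q k)|) / (2 * k)) := by rw [h9]; ring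

end TH966.KS
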