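import Pool.Agent.TH966.KS.Samp
import Pool.Agent.H246KN.GEN

/-!
# Polygons of fixed knot type: control by the counts along sparse lengths
-/

set_option autoImplicit false

namespace TH966.KS

open Finset Filter Topology KN

noncomputable section

/-- the normalised counts -/
def yq (Q : List Dir → Prop) (k : ℕ) : ℝ := pq Q (2 * k) / gr Q ^ (2 * k)

theorem yq_nonneg (Q : List Dir → Prop) (h : 0 ≤ gr Q) (k : ℕ) : 0 ≤ yq Q k := by
  unfold yq pq
  positivity

theorem kes_yq (Q : List Dir → Prop) (hQ : KClass Q) (hne : ∃ w, SAP w ∧ Q w) :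
    ∃ (D θ : ℝ) (k0 : ℕ), 0 ≤ D ∧ 0 < θ ∧ θ < 1 ∧ Kes (yq Q) D θ k0 := by
  obtain ⟨h1, -, -⟩ := gr_bounds Q hQ hne
  have hμ : 0 < gr Q := by linarith
  obtain ⟨θ, C, hθ0, hθ1, hbad⟩ := class_pattern Q hQ hne
  obtain ⟨D, hD0, hD⟩ := c_convex Q (GEN.inv_of Q hQ) (gr Q) θ ((1 + θ) / 2) C hμ hθ0
    (by linarith) hbad
  obtain ⟨k0, hk0⟩ := eventually_atTop.1 hD
  refine ⟨D, (1 + θ) / 2, k0 + 1, hD0, by linarith, by linarith, ?_⟩
  intro k hk hth
  have hkp : 0 < k := by omega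
  have hkR : (0 : ℝ) < k := by exact_mod_cast hkp
  have hμk : ∀ n : ℕ, 0 < gr Q ^ n := fun n => pow_pos hμ n
  have e1 : 2 * (k + 1) = 2 * k + 2 := by ring
  have e2 : 2 * (k + 2) = 2 * k + 4 := by ring
  -- counts in terms of `pq`
  have ha : ∀ n : ℕ, 0 < n → (a Q n : ℝ) = pq Q n * (2 * n) := by
    intro n hn
    have : (0 : ℝ) < n := by exact_mod_cast hn
    unfold pq
    field_simp
  have hyp : ∀ j : ℕ, pq Q (2 * j) = yq Q j * gr Q ^ (2 * j) := by
    intro j
    unfold yq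
    rw [div_mul_cancel₀ _ (hμk _).ne']
  have hp0 : ∀ n : ℕ, 0 ≤ pq Q n := fun n => by unfold pq; positivity
  have h2 : ((1 + θ) / 2 * gr Q) ^ (2 * k + 2) ≤ (a Q (2 * k + 2) : ℝ) := by
    have h3 : ((1 + θ) / 2 * gr Q) ^ (2 * k + 2) ≤ pq Q (2 * k + 2) := by
      rw [← e1, hyp (k + 1), mul_pow, e1]
      exact mul_le_mul_of_nonneg_right hth (hμk _).le
    refine h3.trans ?_
    rw [ha _ (by omega)]
    refine le_mul_of_one_le_right (hp0 _) ?_
    have : (1 : ℝ) ≤ ((2 * k + 2 : ℕ) : ℝ) := by exact_mod_cast (by omega : 1 ≤ 2 * k + 2)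
    linarith
  have h4 := hk0 k (by omega) h2
  rw [ha (2 * k) (by omega), ha (2 * k + 2) (by omega), ha (2 * k + 4) (by omega)] at h4
  rw [← e1, ← e2, hyp k, hyp (k + 1), hyp (k + 2)] at h4
  push_cast at h4
  have hM : 0 < gr Q ^ (4 * k + 4) := hμk _
  have m1 : gr Q ^ (2 * (k + 1)) * gr Q ^ (2 * (k + 1)) = gr Q ^ (4 * k + 4) := by
    rw [← pow_add]; congr 1; ring
  have m2 : gr Q ^ (2 * k) * gr Q ^ (2 * (k + 2)) = gr Q ^ (4 * k + 4) := by
    rw [← pow_add]; congr 1; ring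
  have h5 : (yq Q (k + 1) ^ 2 * (4 * ((k : ℝ) + 1)) ^ 2) * gr Q ^ (4 * k + 4) ≤
      (yq Q k * yq Q (k + 2) * (1 + D / k) * ((4 * k) * (4 * ((k : ℝ) + 2)))) *
        gr Q ^ (4 * k + 4) := by
    calc (yq Q (k + 1) ^ 2 * (4 * ((k : ℝ) + 1)) ^ 2) * gr Q ^ (4 * k + 4)
        = (yq Q (k + 1) * gr Q ^ (2 * (k + 1)) * (2 * (2 * ((k : ℝ) + 1)))) ^ 2 := by
          rw [← m1]; ring
      _ ≤ yq Q k * gr Q ^ (2 * k) * (2 * (2 * (k : ℝ))) *
          (yq Q (k + 2) * gr Q ^ (2 * (k + 2)) * (2 * (2 * ((k : ℝ) + 2)))) * (1 + D / k) := h4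
      _ = _ := by rw [← m2]; ring
  have h6 := le_of_mul_le_mul_right h5 hM
  have hyy : 0 ≤ yq Q k * yq Q (k + 2) * (1 + D / k) := by
    have := yq_nonneg Q hμ.le k
    have := yq_nonneg Q hμ.le (k + 2)
    positivity
  have h7 : yq Q k * yq Q (k + 2) * (1 + D / k) * ((4 * k) * (4 * ((k : ℝ) + 2))) ≤
      yq Q k * yq Q (k + 2) * (1 + D / k) * (4 * ((k : ℝ) + 1)) ^ 2 := by
    refine mul_le_mul_of_nonneg_left ?_ hyy
    nlinarith
  exact le_of_mul_le_mul_right (h6.trans h7) (by positivity)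

theorem gaps (u : ℕ → ℕ) (hu : Tendsto u atTop atTop) (E : ℕ → ℝ) (hE : Monotone E)
    (hE0 : ∀ n, 0 ≤ E n) (δ : ℝ) (hδ : 0 < δ)
    (h : ∀ᶠ j : ℕ in atTop, (u (j + 1) : ℝ) ≤ u j + δ * √(u j * E (u j))) :
    ∀ᶠ n : ℕ in atTop, ∃ k ∈ Set.range u, n ≤ k ∧ (k : ℝ) ≤ n + δ * √(n * E n) := by
  classical
  obtain ⟨J, hJ⟩ := eventually_atTop.1 h
  filter_upwards [eventually_gt_atTop (u J)] with n hn
  have hex : ∃ j, J ≤ j ∧ n ≤ u j := by
    obtain ⟨j, h1, h2⟩ := ((eventually_ge_atTop J).and (hu.eventually_ge_atTop n)).exists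
    exact ⟨j, h1, h2⟩
  obtain ⟨h1, h2⟩ := Nat.find_spec hex
  have h3 : Nat.find hex ≠ J := by
    intro he
    rw [he] at h2
    omega
  obtain ⟨i, hi⟩ : ∃ i, Nat.find hex = i + 1 := ⟨Nat.find hex - 1, by omega⟩
  rw [hi] at h1 h2
  have h4 : u i < n := by
    by_contra hcon
    have h5 := Nat.find_min hex (m := i) (by omega)
    exact h5 ⟨by omega, by omega⟩
  refine ⟨u (i + 1), ⟨i + 1, rfl⟩, h2, (hJ i (by omega)).trans ?_⟩
  have h6 : (u i : ℝ) ≤ n := by exact_mod_cast h4.le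
  refine add_le_add h6 (mul_le_mul_of_nonneg_left (Real.sqrt_le_sqrt ?_) hδ.le)
  exact mul_le_mul h6 (hE h4.le) (hE0 _) (Nat.cast_nonneg _)

theorem along (u : ℕ → ℕ) (P : ℕ → Prop) (h : ∀ᶠ j : ℕ in atTop, P (u j)) :
    ∀ᶠ k : ℕ in atTop, k ∈ Set.range u → P k := by
  obtain ⟨J, hJ⟩ := eventually_atTop.1 h
  filter_upwards [eventually_gt_atTop ((range J).sup u)] with k hk
  rintro ⟨j, rfl⟩
  refine hJ j ?_
  by_contra hcon
  have : u j ≤ (range J).sup u := Finset.le_sup (f := u) (mem_range.2 (by omega))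
  omega

theorem log_diff (β : ℝ) (c : ℝ) (m n : ℕ) (hm : 1 ≤ m) (hmn : m ≤ n) :
    |(β * Real.log (2 * n) + c) - (β * Real.log (2 * m) + c)| ≤ |β| * ((n : ℝ) - m) / m := by
  have hm0 : (0 : ℝ) < m := by exact_mod_cast (show 0 < m by omega)
  have hn0 : (0 : ℝ) < n := by exact_mod_cast (show 0 < n by omega)
  have hmn' : (m : ℝ) ≤ n := by exact_mod_cast hmn
  have h1 : (β * Real.log (2 * n) + c) - (β * Real.log (2 * m) + c) = β * Real.log (n / m) := by
    rw [Real.log_mul (by norm_num) hn0.ne', Real.log_mul (by norm_num) hm0.ne',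
      Real.log_div hn0.ne' hm0.ne']
    ring
  rw [h1, abs_mul, mul_div_assoc]
  refine mul_le_mul_of_nonneg_left ?_ (abs_nonneg _)
  have h2 : 0 ≤ Real.log ((n : ℝ) / m) := Real.log_nonneg ((one_le_div hm0).2 hmn')
  rw [abs_of_nonneg h2]
  have h3 := Real.log_le_sub_one_of_pos (div_pos hn0 hm0)
  refine h3.trans (le_of_eq ?_)
  field_simp

theorem log_over : Tendsto (fun n : ℕ => Real.log (n : ℝ) / n) atTop (𝓝 0) := by
  have h1 : Tendsto (fun n : ℕ => Real.log (64 * (n : ℝ)) / n) atTop (𝓝 0) := MU.tendsto_log_div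
  have h2 : Tendsto (fun n : ℕ => (Real.log 64) / (n : ℝ)) atTop (𝓝 0) :=
    tendsto_const_div_atTop_nhds_zero_nat _
  have h3 := h1.sub h2
  rw [sub_zero] at h3
  refine h3.congr' ?_
  filter_upwards [eventually_gt_atTop 0] with n hn
  have hn0 : (0 : ℝ) < n := by exact_mod_cast hn
  rw [Real.log_mul (by norm_num) hn0.ne']
  ring

theorem psi_zero (β c : ℝ) :
    Tendsto (fun n : ℕ => (β * Real.log (2 * n) + c) / n) atTop (𝓝 0) := by
  have h1 : Tendsto (fun n : ℕ => Real.log n / n) atTop (𝓝 0) := log_over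
  have h2 : Tendsto (fun n : ℕ => (β * Real.log 2 + c) / (n : ℝ)) atTop (𝓝 0) :=
    tendsto_const_div_atTop_nhds_zero_nat _
  have h3 := (h1.const_mul β).add h2
  rw [mul_zero, add_zero] at h3
  refine h3.congr' ?_
  filter_upwards [eventually_gt_atTop 0] with n hn
  have hn0 : (0 : ℝ) < n := by exact_mod_cast hn
  rw [Real.log_mul (by norm_num) hn0.ne']
  ring

theorem log_form {y A β : ℝ} {k : ℕ} (hk : 0 < k) (hy : 0 < y) (hA : 0 < A) :
    Real.log (y / (2 * k : ℝ) ^ β / A) = Real.log y - (β * Real.log (2 * k) + Real.log A) := by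
  have hk0 : (0 : ℝ) < 2 * k := by
    have : (0 : ℝ) < k := by exact_mod_cast hk
    linarith
  have h1 : (0 : ℝ) < (2 * k : ℝ) ^ β := Real.rpow_pos_of_pos hk0 _
  rw [Real.log_div (div_pos hy h1).ne' hA.ne', Real.log_div hy.ne' h1.ne', Real.log_rpow hk0]
  ring

/-- the general form: fixed constants -/
theorem main_fix (Q : List Dir → Prop) (hQ : KClass Q) (hne : ∃ w, SAP w ∧ Q w) :
    ∃ D : ℝ, 0 ≤ D ∧ ∀ (E : ℕ → ℝ), (∀ n, 1 ≤ E n) → Monotone E →
      (∀ n, 1 ≤ n → E (2 * n) ≤ 2 * E n) → Tendsto (fun n : ℕ => E n / n) atTop (𝓝 0) →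
      ∀ (u : ℕ → ℕ), Tendsto u atTop atTop → ∀ τ δ β c : ℝ, 0 < τ → 0 < δ →
      (∀ᶠ j : ℕ in atTop, (u (j + 1) : ℝ) ≤ u j + δ * √(u j * E (u j))) →
      (∀ᶠ j : ℕ in atTop, |Real.log (yq Q (u j)) - (β * Real.log (2 * u j) + c)| ≤ τ * E (u j)) →
      ∀ᶠ n : ℕ in atTop, 0 < yq Q n ∧
        |Real.log (yq Q n) - (β * Real.log (2 * n) + c)| ≤ (9 * τ + D * δ ^ 2) * E n := by
  obtain ⟨D, θ, k0, hD, hθ0, hθ1, hK⟩ := kes_yq Q hQ hne
  obtain ⟨h1, -, -⟩ := gr_bounds Q hQ hne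
  have hμ : 0 < gr Q := by linarith
  refine ⟨384 * D, by positivity, ?_⟩
  intro E hE1 hEm hE2 hEn u hu τ δ β c hτ hδ hgap hyu
  refine step (B := |β|) (S := Set.range u) (ψ := fun n => β * Real.log (2 * n) + c) hK
    (yq_nonneg Q hμ.le) hD hθ0 hθ1 (fun n _ => hE1 n) hEm hE2 hEn hτ hδ (abs_nonneg _)
    (fun m n hm hmn => log_diff β c m n hm hmn) (psi_zero β c)
    (gaps u hu E hEm (fun n => by linarith [hE1 n]) δ hδ hgap) ?_
  have hpos : ∀ᶠ k : ℕ in atTop, 0 < yq Q k := by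
    filter_upwards [class_pos Q hQ hne] with k hk
    exact div_pos hk (pow_pos hμ _)
  have h2 := along u (fun k => |Real.log (yq Q k) - (β * Real.log (2 * k) + c)| ≤ τ * E k) hyu
  filter_upwards [hpos, h2] with k h3 h4 hk
  exact ⟨h3, h4 hk⟩

theorem yq_form (Q : List Dir → Prop) (β : ℝ) (k : ℕ) :
    pq Q (2 * k) / ((2 * k : ℝ) ^ β * gr Q ^ (2 * k)) = yq Q k / (2 * k : ℝ) ^ β := by
  unfold yq
  rw [div_div, mul_comm (gr Q ^ (2 * k))]

theorem E_one : Tendsto (fun n : ℕ => (1 : ℝ) / n) atTop (𝓝 0) :=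
  tendsto_const_div_atTop_nhds_zero_nat 1

/-- the asymptotic form along sparse lengths -/
theorem form (Q : List Dir → Prop) (hQ : KClass Q) (hne : ∃ w, SAP w ∧ Q w)
    (u : ℕ → ℕ) (hu : Tendsto u atTop atTop)
    (hgap : Tendsto (fun j : ℕ => ((u (j + 1) : ℝ) - u j) / √(u j)) atTop (𝓝 0))
    (A β : ℝ) (hA : 0 < A)
    (h : Tendsto (fun j : ℕ => pq Q (2 * u j) / ((2 * u j : ℝ) ^ β * gr Q ^ (2 * u j))) atTop
      (𝓝 A)) :
    Tendsto (fun k : ℕ => pq Q (2 * k) / ((2 * k : ℝ) ^ β * gr Q ^ (2 * k))) atTop (𝓝 A) := by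
  obtain ⟨D, hD, hmain⟩ := main_fix Q hQ hne
  obtain ⟨h1, -, -⟩ := gr_bounds Q hQ hne
  have hμ : 0 < gr Q := by linarith
  simp only [yq_form] at h ⊢
  have hpos : ∀ᶠ k : ℕ in atTop, 0 < yq Q k := by
    filter_upwards [class_pos Q hQ hne] with k hk
    exact div_pos hk (pow_pos hμ _)
  -- the logarithms along `u`
  have hlog : Tendsto (fun j : ℕ => Real.log (yq Q (u j)) -
      (β * Real.log (2 * u j) + Real.log A)) atTop (𝓝 0) := by
    have h2 : Tendsto (fun j : ℕ => Real.log (yq Q (u j) / (2 * u j : ℝ) ^ β / A)) atTop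
        (𝓝 (Real.log (A / A))) := by
      refine Tendsto.log (h.div_const A) ?_
      rw [div_self hA.ne']; norm_num
    rw [div_self hA.ne', Real.log_one] at h2
    refine h2.congr' ?_
    filter_upwards [hu.eventually hpos, hu.eventually_gt_atTop 0] with j h3 h4
    exact log_form h4 h3 hA
  have hall : Tendsto (fun k : ℕ => Real.log (yq Q k) -
      (β * Real.log (2 * k) + Real.log A)) atTop (𝓝 0) := by
    rw [Metric.tendsto_atTop']
    intro ε hε
    have hδ : 0 < √(ε / (4 * (D + 1))) := Real.sqrt_pos.2 (by positivity)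
    have h3 := hmain (fun _ => 1) (fun _ => le_rfl) monotone_const (fun _ _ => by norm_num)
      E_one u hu (ε / 36) (√(ε / (4 * (D + 1)))) β (Real.log A) (by positivity) hδ (by
        filter_upwards [hgap.eventually_lt_const hδ, hu.eventually_gt_atTop 0] with j h4 h5
        have h6 : (0 : ℝ) < √(u j : ℝ) := Real.sqrt_pos.2 (by exact_mod_cast h5)
        rw [div_lt_iff₀ h6] at h4
        rw [mul_one]
        linarith) (by
        have h4 := hlog.abs
        rw [abs_zero] at h4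
        filter_upwards [h4.eventually_lt_const (show 0 < ε / 36 by positivity)] with j h5
        rw [mul_one]
        exact h5.le)
    obtain ⟨N, hN⟩ := eventually_atTop.1 h3
    refine ⟨N, fun n hn => ?_⟩
    rw [dist_zero_right, Real.norm_eq_abs]
    refine (hN n hn.le).2.trans_lt ?_
    rw [Real.sq_sqrt (by positivity), mul_one]
    have h7 : D * (ε / (4 * (D + 1))) ≤ ε / 4 := by
      rw [mul_div_assoc', div_le_div_iff₀ (by positivity) (by norm_num)]
      nlinarith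
    linarith
  have h8 : Tendsto (fun k : ℕ => Real.exp (Real.log (yq Q k) -
      (β * Real.log (2 * k) + Real.log A)) * A) atTop (𝓝 (Real.exp 0 * A)) :=
    ((Real.continuous_exp.tendsto 0).comp hall).mul_const A
  rw [Real.exp_zero, one_mul] at h8
  refine h8.congr' ?_
  filter_upwards [hpos, eventually_gt_atTop 0] with k h9 h10
  have hk0 : (0 : ℝ) < 2 * k := by
    have : (0 : ℝ) < k := by exact_mod_cast h10
    linarith
  rw [← log_form h10 h9 hA, Real.exp_log (div_pos (div_pos h9 (Real.rpow_pos_of_pos hk0 _)) hA),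
    div_mul_cancel₀ _ hA.ne']

/-- the exponent along sparse lengths -/
theorem expo (Q : List Dir → Prop) (hQ : KClass Q) (hne : ∃ w, SAP w ∧ Q w)
    (u : ℕ → ℕ) (hu : Tendsto u atTop atTop)
    (hgap : Tendsto (fun j : ℕ => ((u (j + 1) : ℝ) - u j) / √(u j * Real.log (u j))) atTop (𝓝 0))
    (β : ℝ)
    (h : Tendsto (fun j : ℕ => Real.log (pq Q (2 * u j) / gr Q ^ (2 * u j)) /
      Real.log (2 * u j)) atTop (𝓝 β)) :
    Tendsto (fun k : ℕ => Real.log (pq Q (2 * k) / gr Q ^ (2 * k)) / Real.log (2 * k)) atTop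
      (𝓝 β) := by
  obtain ⟨D, hD, hmain⟩ := main_fix Q hQ hne
  change Tendsto (fun j : ℕ => Real.log (yq Q (u j)) / Real.log (2 * u j)) atTop (𝓝 β) at h
  change Tendsto (fun k : ℕ => Real.log (yq Q k) / Real.log (2 * k)) atTop (𝓝 β)
  have hlog0 : ∀ n : ℕ, 0 ≤ Real.log (n : ℝ) := fun n => Real.log_natCast_nonneg n
  have hlog2 : Real.log 2 ≤ 1 := by
    have := Real.log_two_lt_d9
    linarith
  have hlog2' : 1 / 2 ≤ Real.log 2 := by
    have := Real.log_two_gt_d9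
    linarith
  have hE1 : ∀ n : ℕ, (1 : ℝ) ≤ 1 + Real.log n := fun n => by linarith [hlog0 n]
  have hEm : Monotone (fun n : ℕ => 1 + Real.log (n : ℝ)) := by
    intro m n hmn
    rcases Nat.eq_zero_or_pos m with h0 | h0
    · subst h0
      simp only [Nat.cast_zero, Real.log_zero, add_zero]
      exact hE1 n
    · have h1 : (0 : ℝ) < m := by exact_mod_cast h0
      have h2 : (m : ℝ) ≤ n := by exact_mod_cast hmn
      have := Real.log_le_log h1 h2
      simp only
      linarith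
  have hE2 : ∀ n : ℕ, 1 ≤ n → 1 + Real.log ((2 * n : ℕ) : ℝ) ≤ 2 * (1 + Real.log n) := by
    intro n hn
    have h1 : (0 : ℝ) < n := by exact_mod_cast (show 0 < n by omega)
    push_cast
    rw [Real.log_mul (by norm_num) h1.ne']
    linarith [hlog0 n]
  have hEn : Tendsto (fun n : ℕ => (1 + Real.log (n : ℝ)) / n) atTop (𝓝 0) := by
    have h1 := E_one.add log_over
    rw [add_zero] at h1
    refine h1.congr fun n => ?_
    rw [add_div]
  rw [Metric.tendsto_atTop']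
  intro ε hε
  have hδ : 0 < √(ε / (8 * (D + 1))) := Real.sqrt_pos.2 (by positivity)
  have h3 := hmain (fun n => 1 + Real.log n) hE1 hEm hE2 hEn u hu (ε / 72)
    (√(ε / (8 * (D + 1)))) β 0 (by positivity) hδ (by
      filter_upwards [hgap.eventually_lt_const hδ, hu.eventually_gt_atTop 1] with j h4 h5
      have h51 : (1 : ℝ) < u j := by exact_mod_cast h5
      have h52 : 0 < Real.log (u j : ℝ) := Real.log_pos h51
      have h6 : (0 : ℝ) < √(u j * Real.log (u j)) := Real.sqrt_pos.2 (by positivity)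
      rw [div_lt_iff₀ h6] at h4
      have h7 : √(u j * Real.log (u j)) ≤ √(u j * (1 + Real.log (u j))) := by
        refine Real.sqrt_le_sqrt (mul_le_mul_of_nonneg_left (by linarith) (by positivity))
      have h8 := mul_le_mul_of_nonneg_left h7 hδ.le
      linarith) (by
      filter_upwards [Metric.tendsto_nhds.1 h (ε / 72) (by positivity),
        hu.eventually_gt_atTop 1] with j h4 h5
      have h51 : (1 : ℝ) < u j := by exact_mod_cast h5
      have h52 : 0 < Real.log (2 * u j : ℝ) := Real.log_pos (by linarith)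
      rw [Real.dist_eq] at h4
      have h6 : Real.log (yq Q (u j)) - (β * Real.log (2 * u j) + 0) =
          (Real.log (yq Q (u j)) / Real.log (2 * u j) - β) * Real.log (2 * u j) := by
        field_simp
        ring
      rw [h6, abs_mul, abs_of_pos h52]
      have h7 : Real.log (2 * u j : ℝ) ≤ 1 + Real.log (u j) := by
        rw [Real.log_mul (by norm_num) (by linarith)]
        linarith
      exact mul_le_mul h4.le h7 h52.le (by positivity))
  obtain ⟨N, hN⟩ := eventually_atTop.1 h3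
  refine ⟨N + 1, fun n hn => ?_⟩
  have hn1 : (1 : ℝ) < n := by exact_mod_cast (show 1 < n by omega)
  have hln : 0 < Real.log (2 * n : ℝ) := Real.log_pos (by linarith)
  have h4 := (hN n (by omega)).2
  rw [Real.dist_eq]
  have h6 : Real.log (yq Q n) / Real.log (2 * n) - β =
      (Real.log (yq Q n) - (β * Real.log (2 * n) + 0)) / Real.log (2 * n) := by
    field_simp
    ring
  rw [h6, abs_div, abs_of_pos hln, div_lt_iff₀ hln]
  refine h4.trans_lt ?_
  rw [Real.sq_sqrt (by positivity)]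
  have h7 : D * (ε / (8 * (D + 1))) ≤ ε / 8 := by
    rw [mul_div_assoc', div_le_div_iff₀ (by positivity) (by norm_num)]
    nlinarith
  have h8 : 1 + Real.log (n : ℝ) ≤ 2 * Real.log (2 * n) := by
    rw [Real.log_mul (by norm_num) (by linarith)]
    linarith [hlog0 n]
  have h9 : (9 * (ε / 72) + D * (ε / (8 * (D + 1)))) * (1 + Real.log n) ≤
      (ε / 4) * (2 * Real.log (2 * n)) :=
    mul_le_mul (by linarith) h8 (by linarith [hE1 n]) (by positivity)
  refine h9.trans_lt ?_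
  nlinarith

/-- two-sided bounds along sparse lengths -/
theorem bounds (Q : List Dir → Prop) (hQ : KClass Q) (hne : ∃ w, SAP w ∧ Q w)
    (u : ℕ → ℕ) (hu : Tendsto u atTop atTop) (C : ℝ)
    (hgap : ∀ᶠ j : ℕ in atTop, (u (j + 1) : ℝ) ≤ u j + C * √(u j))
    (β c₁ c₂ : ℝ) (hc : 0 < c₁)
    (h : ∀ᶠ j : ℕ in atTop, c₁ ≤ pq Q (2 * u j) / ((2 * u j : ℝ) ^ β * gr Q ^ (2 * u j)) ∧
      pq Q (2 * u j) / ((2 * u j : ℝ) ^ β * gr Q ^ (2 * u j)) ≤ c₂) :
    ∃ c₃ c₄ : ℝ, 0 < c₃ ∧ ∀ᶠ k : ℕ in atTop,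
      c₃ ≤ pq Q (2 * k) / ((2 * k : ℝ) ^ β * gr Q ^ (2 * k)) ∧
      pq Q (2 * k) / ((2 * k : ℝ) ^ β * gr Q ^ (2 * k)) ≤ c₄ := by
  obtain ⟨D, hD, hmain⟩ := main_fix Q hQ hne
  obtain ⟨h1, -, -⟩ := gr_bounds Q hQ hne
  have hμ : 0 < gr Q := by linarith
  simp only [yq_form] at h ⊢
  have hpos : ∀ᶠ k : ℕ in atTop, 0 < yq Q k := by
    filter_upwards [class_pos Q hQ hne] with k hk
    exact div_pos hk (pow_pos hμ _)
  set τ : ℝ := |Real.log c₁| + |Real.log c₂| + 1 with hτ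
  have hτ0 : 0 < τ := by positivity
  have h3 := hmain (fun _ => 1) (fun _ => le_rfl) monotone_const (fun _ _ => by norm_num)
    E_one u hu τ (|C| + 1) β 0 hτ0 (by positivity) (by
      filter_upwards [hgap] with j h4
      rw [mul_one]
      have h5 : C ≤ |C| + 1 := by linarith [le_abs_self C]
      have h6 := mul_le_mul_of_nonneg_right h5 (Real.sqrt_nonneg (u j : ℝ))
      linarith) (by
      filter_upwards [h, hu.eventually hpos, hu.eventually_gt_atTop 0] with j h4 h5 h6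
      have h7 := log_form (A := 1) (β := β) h6 h5 one_pos
      rw [div_one, Real.log_one] at h7
      rw [← h7, mul_one]
      have h8 : 0 < yq Q (u j) / (2 * u j : ℝ) ^ β := lt_of_lt_of_le hc h4.1
      have h9 := Real.log_le_log hc h4.1
      have h10 := Real.log_le_log h8 h4.2
      rw [abs_le]
      constructor
      · linarith [neg_abs_le (Real.log c₁), abs_nonneg (Real.log c₂)]
      · linarith [le_abs_self (Real.log c₂), abs_nonneg (Real.log c₁)])
  set M : ℝ := 9 * τ + D * (|C| + 1) ^ 2 with hM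
  refine ⟨Real.exp (-M), Real.exp M, Real.exp_pos _, ?_⟩
  filter_upwards [h3, eventually_gt_atTop 0] with k h4 h5
  have hk0 : (0 : ℝ) < 2 * k := by
    have : (0 : ℝ) < k := by exact_mod_cast h5
    linarith
  have h6 : 0 < yq Q k / (2 * k : ℝ) ^ β := div_pos h4.1 (Real.rpow_pos_of_pos hk0 _)
  have h7 := log_form (A := 1) (β := β) h5 h4.1 one_pos
  rw [div_one, Real.log_one] at h7
  have h8 := h4.2
  rw [← h7, mul_one, abs_le] at h8
  exact ⟨(Real.le_log_iff_exp_le h6).1 h8.1, (Real.log_le_iff_le_exp h6).1 h8.2⟩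

end

end TH966.KS
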