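import Pool.Agent.TH966.KS.Kn

/-!
# The rate of convergence of the ratios
-/

set_option autoImplicit false

namespace TH966.KS

open Finset Filter Topology KN

section ana

variable {y : ℕ → ℝ} {D θ g : ℝ} {k0 : ℕ}

/-- forward propagation of a ratio larger than one -/
theorem fwd2 (hK : Kes y D θ k0) (hy : ∀ k, 0 ≤ y k) (hD : 0 ≤ D) (hθ0 : 0 < θ) (hθ1 : θ < 1)
    {k J : ℕ} {ρ q : ℝ} (hk : k0 ≤ k) (hkp : 0 < k) (hg : 1 + D / k ≤ g) (hq1 : 1 ≤ q)
    (hqg : q * g ^ J ≤ ρ) (hyk : 0 < y k) (h1 : ρ * y k ≤ y (k + 1)) (hth : θ ^ (2 * k) ≤ y k) :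
    ∀ j, j ≤ J → q ^ j * y k ≤ y (k + j) ∧ ρ * y (k + j) ≤ y (k + j + 1) * g ^ j := by
  have hg1 : 1 ≤ g := by
    have : 0 ≤ D / k := by positivity
    linarith
  have hg0 : 0 < g := by linarith
  intro j
  induction j with
  | zero => intro _; simpa using h1
  | succ j ih =>
    intro hj
    obtain ⟨i1, i2⟩ := ih (by omega)
    have hqj : (1 : ℝ) ≤ q ^ j := one_le_pow₀ hq1
    have a0 : 0 < y (k + j) := lt_of_lt_of_le (by positivity) i1
    have a1 : q * y (k + j) ≤ y (k + j + 1) := by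
      have h2 : q * g ^ j ≤ ρ := by
        refine le_trans ?_ hqg
        exact mul_le_mul_of_nonneg_left (pow_le_pow_right₀ hg1 (by omega)) (by linarith)
      have h3 : (q * y (k + j)) * g ^ j ≤ y (k + j + 1) * g ^ j := by
        calc (q * y (k + j)) * g ^ j = (q * g ^ j) * y (k + j) := by ring
          _ ≤ ρ * y (k + j) := mul_le_mul_of_nonneg_right h2 a0.le
          _ ≤ _ := i2
      exact le_of_mul_le_mul_right h3 (by positivity)
    have a2 : q ^ (j + 1) * y k ≤ y (k + j + 1) := by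
      calc q ^ (j + 1) * y k = q * (q ^ j * y k) := by ring
        _ ≤ q * y (k + j) := mul_le_mul_of_nonneg_left i1 (by linarith)
        _ ≤ _ := a1
    have a3 : y k ≤ y (k + j + 1) :=
      (le_mul_of_one_le_left hyk.le (one_le_pow₀ hq1)).trans a2
    have a4 := hK (k + j) (by omega) ((pow_le_pow_of_le_one hθ0.le hθ1.le (by omega)).trans
      (hth.trans a3))
    have a5 : (1 + D / ((k + j : ℕ) : ℝ)) ≤ g := g_anti hD hkp (by omega) hg
    have a6 : y (k + j + 1) ^ 2 ≤ y (k + j) * y (k + j + 2) * g :=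
      a4.trans (mul_le_mul_of_nonneg_left a5 (mul_nonneg (hy _) (hy _)))
    have e1 : k + (j + 1) = k + j + 1 := by ring
    have e2 : k + j + 1 + 1 = k + j + 2 := by ring
    rw [e1, e2]
    refine ⟨a2, ?_⟩
    have a7 : y (k + j) * (ρ * y (k + j + 1)) ≤ y (k + j) * (y (k + j + 2) * g ^ (j + 1)) := by
      calc y (k + j) * (ρ * y (k + j + 1)) = (ρ * y (k + j)) * y (k + j + 1) := by ring
        _ ≤ (y (k + j + 1) * g ^ j) * y (k + j + 1) := mul_le_mul_of_nonneg_right i2 (hy _)
        _ = y (k + j + 1) ^ 2 * g ^ j := by ring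
        _ ≤ (y (k + j) * y (k + j + 2) * g) * g ^ j :=
          mul_le_mul_of_nonneg_right a6 (by positivity)
        _ = y (k + j) * (y (k + j + 2) * g ^ (j + 1)) := by ring
    exact le_of_mul_le_mul_left a7 a0

/-- backward propagation of a ratio smaller than one -/
theorem bwd2 (hK : Kes y D θ k0) (hy : ∀ k, 0 ≤ y k) (hD : 0 ≤ D) (hθ0 : 0 < θ) (hθ1 : θ < 1)
    {b a : ℕ} {σ q : ℝ} (hb : k0 ≤ b) (hbp : 0 < b) (hg : 1 + D / b ≤ g) (hσ0 : 0 ≤ σ)
    (hq1 : 1 ≤ q) (hqg : q * (σ * g ^ a) ≤ 1) (hyk : 0 < y (b + a + 1))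
    (h1 : y (b + a + 1) ≤ σ * y (b + a)) (hth : θ ^ (2 * b) ≤ y (b + a + 1)) :
    ∀ i j, i + j = a → q ^ (i + 1) * y (b + a + 1) ≤ y (b + j) ∧
      y (b + j + 1) ≤ σ * g ^ i * y (b + j) := by
  have hg1 : 1 ≤ g := by
    have : 0 ≤ D / b := by positivity
    linarith
  have hg0 : 0 < g := by linarith
  have hqs : ∀ i, i ≤ a → q * (σ * g ^ i) ≤ 1 := by
    intro i hi
    refine le_trans ?_ hqg
    exact mul_le_mul_of_nonneg_left (mul_le_mul_of_nonneg_left (pow_le_pow_right₀ hg1 hi) hσ0)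
      (by linarith)
  have hstep : ∀ (i : ℕ) (u v : ℝ), i ≤ a → 0 ≤ v → u ≤ σ * g ^ i * v → q * u ≤ v := by
    intro i u v hi hv huv
    calc q * u ≤ q * (σ * g ^ i * v) := mul_le_mul_of_nonneg_left huv (by linarith)
      _ = (q * (σ * g ^ i)) * v := by ring
      _ ≤ 1 * v := mul_le_mul_of_nonneg_right (hqs i hi) hv
      _ = v := one_mul v
  intro i
  induction i with
  | zero =>
    intro j hj
    rw [zero_add] at hj
    subst hj
    refine ⟨?_, by simpa using h1⟩
    rw [zero_add, pow_one]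
    exact hstep 0 _ _ (by omega) (hy _) (by simpa using h1)
  | succ i ih =>
    intro j hj
    obtain ⟨i1, i2⟩ := ih (j + 1) (by omega)
    have e1 : b + (j + 1) = b + j + 1 := by ring
    have e2 : b + j + 1 + 1 = b + j + 2 := by ring
    rw [e1] at i1 i2
    rw [e2] at i2
    have a3 : y (b + a + 1) ≤ y (b + j + 1) :=
      (le_mul_of_one_le_left hyk.le (one_le_pow₀ hq1)).trans i1
    have a0 : 0 < y (b + j + 1) := lt_of_lt_of_le hyk a3
    have a4 := hK (b + j) (by omega) ((pow_le_pow_of_le_one hθ0.le hθ1.le (by omega)).trans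
      (hth.trans a3))
    have a5 : (1 + D / ((b + j : ℕ) : ℝ)) ≤ g := g_anti hD hbp (by omega) hg
    have a6 : y (b + j + 1) ^ 2 ≤ y (b + j) * y (b + j + 2) * g :=
      a4.trans (mul_le_mul_of_nonneg_left a5 (mul_nonneg (hy _) (hy _)))
    have a7 : y (b + j + 1) ≤ σ * g ^ (i + 1) * y (b + j) := by
      have a8 : y (b + j + 1) * y (b + j + 1) ≤ (σ * g ^ (i + 1) * y (b + j)) * y (b + j + 1) := by
        calc y (b + j + 1) * y (b + j + 1) = y (b + j + 1) ^ 2 := by ring
          _ ≤ y (b + j) * y (b + j + 2) * g := a6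
          _ ≤ y (b + j) * (σ * g ^ i * y (b + j + 1)) * g :=
            mul_le_mul_of_nonneg_right (mul_le_mul_of_nonneg_left i2 (hy _)) hg0.le
          _ = (σ * g ^ (i + 1) * y (b + j)) * y (b + j + 1) := by ring
      exact le_of_mul_le_mul_right a8 a0
    refine ⟨?_, a7⟩
    calc q ^ (i + 1 + 1) * y (b + a + 1) = q * (q ^ (i + 1) * y (b + a + 1)) := by ring
      _ ≤ q * y (b + j + 1) := mul_le_mul_of_nonneg_left i1 (by linarith)
      _ ≤ y (b + j) := hstep (i + 1) _ _ (by omega) (hy _) a7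

/-- the rate of convergence of the ratios of a bounded sequence -/
theorem rate (hK : Kes y D θ k0) (hy : ∀ k, 0 ≤ y k) (hD : 0 ≤ D) (hθ0 : 0 < θ) (hθ1 : θ < 1)
    {M : ℝ} (hM : ∀ᶠ k : ℕ in atTop, y k ≤ M) (hy0 : ∀ᶠ k : ℕ in atTop, 0 < y k)
    (hlog : Tendsto (fun k : ℕ => Real.log (y k) / k) atTop (𝓝 0)) :
    ∃ R : ℝ, ∀ᶠ k : ℕ in atTop,
      |y (k + 1) / y k - 1| ≤ R * √((1 + |Real.log (y k)|) / k) := by
  obtain ⟨N1, hN1⟩ := eventually_atTop.1 hM
  -- constants
  set Λ : ℝ := |Real.log (max M 1)| + 1 with hΛ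
  have hΛ1 : 1 ≤ Λ := by rw [hΛ]; linarith [abs_nonneg (Real.log (max M 1))]
  set R : ℝ := √(128 * (D + 1) * Λ) with hR
  have hR0 : 0 < R := Real.sqrt_pos.2 (by positivity)
  have hRsq : R ^ 2 = 128 * (D + 1) * Λ := Real.sq_sqrt (by positivity)
  refine ⟨R, ?_⟩
  have hlθ : 0 < Real.log (1 / θ) := Real.log_pos (by rw [lt_div_iff₀ hθ0]; linarith)
  have t1 : Tendsto (fun k : ℕ => (1 + |Real.log (y k)|) / k) atTop (𝓝 0) := by
    have h1 := E_one.add hlog.abs
    rw [abs_zero, add_zero] at h1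
    refine h1.congr fun n => ?_
    rw [add_div, abs_div, Nat.abs_cast]
  have ev1 : ∀ᶠ k : ℕ in atTop, R * √((1 + |Real.log (y k)|) / k) ≤ 1 / 2 := by
    have h1 := ((Real.continuous_sqrt.tendsto 0).comp t1).const_mul R
    rw [Real.sqrt_zero, mul_zero] at h1
    exact (h1.eventually_lt_const (by norm_num : (0 : ℝ) < 1 / 2)).mono fun _ h => h.le
  have ev2 : ∀ᶠ k : ℕ in atTop, |Real.log (y k) / k| ≤ Real.log (1 / θ) / 2 := by
    have h1 := hlog.abs
    rw [abs_zero] at h1
    exact (h1.eventually_lt_const (half_pos hlθ)).mono fun _ h => h.le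
  have ev3 : ∀ᶠ k : ℕ in atTop, 16 * (D + 1) ≤ R * √(k : ℝ) := by
    have h1 : Tendsto (fun n : ℕ => R * √(n : ℝ)) atTop atTop :=
      (Real.tendsto_sqrt_atTop.comp tendsto_natCast_atTop_atTop).const_mul_atTop hR0
    exact h1.eventually_ge_atTop _
  filter_upwards [ev1, ev2, ev3, hy0, eventually_ge_atTop (2 * k0 + 2 * N1 + 8)]
    with k e1 e2 e3 hyk hk
  have hkR : (0 : ℝ) < k := by exact_mod_cast (show 0 < k by omega)
  set f : ℝ := 1 + |Real.log (y k)| with hf
  have hf1 : 1 ≤ f := by rw [hf]; linarith [abs_nonneg (Real.log (y k))]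
  set c : ℝ := R * √(f / k) with hc
  have hc0 : 0 < c := mul_pos hR0 (Real.sqrt_pos.2 (by positivity))
  have hcsq : c ^ 2 * k = 128 * (D + 1) * Λ * f := by
    have h0 : √(f / k) ^ 2 = f / k := Real.sq_sqrt (by positivity)
    rw [hc, mul_pow, h0, hRsq]
    field_simp
  have hck : 16 * (D + 1) ≤ c * k := by
    refine e3.trans ?_
    have h1 : √(f / k) * k = √f * √(k : ℝ) := by
      rw [Real.sqrt_div (by positivity)]
      have h2 : (k : ℝ) = √(k : ℝ) * √(k : ℝ) := (Real.mul_self_sqrt hkR.le).symm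
      have h3 : √(k : ℝ) ≠ 0 := (Real.sqrt_pos.2 hkR).ne'
      rw [div_mul_eq_mul_div, div_eq_iff h3, mul_assoc, ← h2]
    rw [hc, mul_assoc, h1]
    exact mul_le_mul_of_nonneg_left (le_mul_of_one_le_left (Real.sqrt_nonneg _)
      (Real.one_le_sqrt.2 hf1)) hR0.le
  -- the number of steps
  set J : ℕ := ⌊c * k / (8 * (D + 1))⌋₊ with hJ
  have hJa : (J : ℝ) ≤ c * k / (8 * (D + 1)) := Nat.floor_le (by positivity)
  have hJb : c * k / (8 * (D + 1)) < J + 1 := Nat.lt_floor_add_one _
  have hJc : c * k / (16 * (D + 1)) ≤ J := by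
    have h1 : 1 ≤ c * k / (16 * (D + 1)) := (one_le_div (by positivity)).2 hck
    have h2 : c * k / (8 * (D + 1)) = c * k / (16 * (D + 1)) + c * k / (16 * (D + 1)) := by
      field_simp; norm_num
    linarith
  have hJk : 2 * (J + 2) ≤ k := by
    have h1 : c * k / (8 * (D + 1)) ≤ k / 16 := by
      rw [div_le_div_iff₀ (by positivity) (by norm_num)]
      nlinarith
    have h2 : (8 : ℝ) ≤ k := by exact_mod_cast (show 8 ≤ k by omega)
    have h4 : (2 * (J + 2) : ℝ) ≤ k := by linarith
    exact_mod_cast h4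
  set g : ℝ := 1 + 2 * D / k with hg
  have hg1 : 1 ≤ g := by
    have : 0 ≤ 2 * D / k := by positivity
    rw [hg]; linarith
  have hgJ : g ^ J ≤ Real.exp (c / 4) := by
    have h1 : g ≤ Real.exp (2 * D / k) := by
      rw [hg, add_comm]; exact Real.add_one_le_exp _
    calc g ^ J ≤ Real.exp (2 * D / k) ^ J := pow_le_pow_left₀ (by linarith) h1 J
      _ = Real.exp (J * (2 * D / k)) := by rw [← Real.exp_nat_mul]
      _ ≤ Real.exp (c / 4) := by
        refine Real.exp_le_exp.2 ?_
        have h2 : (J : ℝ) * (2 * D / k) ≤ c * k / (8 * (D + 1)) * (2 * D / k) :=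
          mul_le_mul_of_nonneg_right hJa (by positivity)
        refine h2.trans ?_
        have h3 : c * k / (8 * (D + 1)) * (2 * D / k) = c * D / (4 * (D + 1)) := by
          field_simp
          ring
        rw [h3, div_le_div_iff₀ (by positivity) (by norm_num)]
        nlinarith
  have hexp : Real.exp (c / 4) * (1 - c / 4) ≤ 1 := by
    have h1 := Real.add_one_le_exp (-(c / 4))
    have h2 : Real.exp (c / 4) * Real.exp (-(c / 4)) = 1 := by
      rw [← Real.exp_add, add_neg_cancel, Real.exp_zero]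
    rw [← h2]
    exact mul_le_mul_of_nonneg_left (by linarith) (Real.exp_pos _).le
  set q : ℝ := 1 + c / 2 with hq
  have hq1 : 1 ≤ q := by rw [hq]; linarith
  have hc4 : 0 < 1 - c / 4 := by linarith
  -- the threshold
  have hyθ : θ ^ k ≤ y k := by
    rw [← Real.log_le_log_iff (by positivity) hyk, Real.log_pow]
    have h1 := (abs_le.1 e2).1
    have h2 := mul_le_mul_of_nonneg_left h1 hkR.le
    have h3 : (k : ℝ) * (Real.log (y k) / k) = Real.log (y k) := by field_simp
    have h4 : Real.log (1 / θ) = -Real.log θ := by rw [one_div, Real.log_inv]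
    rw [h3, h4] at h2
    rw [h4] at hlθ
    nlinarith
  -- the final contradiction
  have hfin : ∀ m : ℕ, N1 ≤ m → q ^ J * y k ≤ y m → False := by
    intro m hm hle
    have h1 : q ^ J * y k ≤ max M 1 := hle.trans ((hN1 m hm).trans (le_max_left _ _))
    have h2 : 0 < q ^ J * y k := mul_pos (pow_pos (by linarith) _) hyk
    have h3 := Real.log_le_log h2 h1
    rw [Real.log_mul (pow_pos (by linarith) _).ne' hyk.ne', Real.log_pow] at h3
    have h4 : c / 4 ≤ Real.log q := by
      have h5 : Real.exp (c / 4) ≤ q := by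
        have h6 : Real.exp (c / 4) ≤ 1 / (1 - c / 4) := by
          rw [le_div_iff₀ hc4]; exact hexp
        refine h6.trans ?_
        rw [div_le_iff₀ hc4, hq]
        nlinarith
      rwa [← Real.le_log_iff_exp_le (by linarith)] at h5
    have h7 : (J : ℝ) * (c / 4) ≤ J * Real.log q := mul_le_mul_of_nonneg_left h4 (by positivity)
    have h8 : c * k / (16 * (D + 1)) * (c / 4) ≤ J * (c / 4) :=
      mul_le_mul_of_nonneg_right hJc (by positivity)
    have h9 : c * k / (16 * (D + 1)) * (c / 4) = 2 * (Λ * f) := by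
      have : c * k / (16 * (D + 1)) * (c / 4) = (c ^ 2 * k) / (64 * (D + 1)) := by
        field_simp
        ring
      rw [this, hcsq]
      field_simp
      ring
    have h10 : -Real.log (y k) ≤ |Real.log (y k)| := neg_le_abs _
    have h11 : Real.log (max M 1) ≤ |Real.log (max M 1)| := le_abs_self _
    have h12 : Λ + f ≤ 2 * (Λ * f) := by nlinarith
    have h13 : Real.log (max M 1) - Real.log (y k) ≤ Λ + f - 2 := by
      rw [hΛ, hf]; linarith
    linarith
  have hgk : 1 + D / (k : ℝ) ≤ g := by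
    rw [hg]
    have : D / k ≤ 2 * D / k := div_le_div_of_nonneg_right (by linarith) hkR.le
    linarith
  rw [abs_le]
  constructor
  · -- lower bound
    by_contra hcon
    have h1 : y (k + 1) / y k < 1 - c := by linarith [not_le.1 hcon]
    rw [div_lt_iff₀ hyk] at h1
    have h2 := hK k (by omega)
    have hJ1 : 1 ≤ J := by
      have h7 : (1 : ℝ) ≤ J := le_trans ((one_le_div (by positivity)).2 hck) hJc
      exact_mod_cast h7
    -- go back from `k + 1`
    obtain ⟨b, hb⟩ : ∃ b, k = b + J := ⟨k - J, by omega⟩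
    have hbk : k ≤ 2 * b := by omega
    have hbR : (0 : ℝ) < b := by exact_mod_cast (show 0 < b by omega)
    have hgb : 1 + D / (b : ℝ) ≤ g := by
      rw [hg]
      have h3 : (k : ℝ) ≤ 2 * b := by exact_mod_cast hbk
      have : D / (b : ℝ) ≤ 2 * D / k := by
        rw [div_le_div_iff₀ hbR hkR]
        nlinarith
      linarith
    -- use the point `k` as the starting point: the ratio to the left of `k`
    obtain ⟨m, hm⟩ : ∃ m, k = m + 1 := ⟨k - 1, by omega⟩
    have hθm : θ ^ (2 * m + 2) ≤ y (m + 1) := by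
      rw [← hm]
      exact (pow_le_pow_of_le_one hθ0.le hθ1.le (by omega)).trans hyθ
    have hKm := hK m (by omega) hθm
    have hgm : 1 + D / (m : ℝ) ≤ g := g_anti hD (show 0 < b by omega) (by omega) hgb
    have hKm2 : y (m + 1) ^ 2 ≤ y m * y (m + 2) * g :=
      hKm.trans (mul_le_mul_of_nonneg_left hgm (mul_nonneg (hy _) (hy _)))
    have e6 : m + 2 = k + 1 := by omega
    rw [e6, ← hm] at hKm2
    have h5 : y k ≤ ((1 - c) * g) * y m := by
      have h6 : y k * y k ≤ (((1 - c) * g) * y m) * y k := by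
        calc y k * y k = y k ^ 2 := by ring
          _ ≤ y m * y (k + 1) * g := hKm2
          _ ≤ y m * ((1 - c) * y k) * g := mul_le_mul_of_nonneg_right
            (mul_le_mul_of_nonneg_left h1.le (hy _)) (by linarith)
          _ = _ := by ring
      exact le_of_mul_le_mul_right h6 hyk
    have hb2 := bwd2 (g := g) (b := b) (a := J - 1) (σ := (1 - c) * g) (q := q) hK hy hD hθ0 hθ1
      (by omega) (by omega) hgb (mul_nonneg (by linarith) (by linarith)) hq1 (by
        have h8 : (1 - c) * g * g ^ (J - 1) = (1 - c) * g ^ J := by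
          rw [mul_assoc, ← pow_succ', Nat.sub_add_cancel hJ1]
        rw [h8]
        have h9 : q * ((1 - c) * g ^ J) ≤ q * ((1 - c) * Real.exp (c / 4)) :=
          mul_le_mul_of_nonneg_left (mul_le_mul_of_nonneg_left hgJ (by linarith)) (by linarith)
        refine h9.trans ?_
        have h10 : q * (1 - c) ≤ 1 - c / 4 := by rw [hq]; nlinarith
        calc q * ((1 - c) * Real.exp (c / 4)) = (q * (1 - c)) * Real.exp (c / 4) := by ring
          _ ≤ (1 - c / 4) * Real.exp (c / 4) :=
            mul_le_mul_of_nonneg_right h10 (Real.exp_pos _).le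
          _ ≤ 1 := by rw [mul_comm]; exact hexp)
      (by rw [show b + (J - 1) + 1 = k by omega]; exact hyk)
      (by
        rw [show b + (J - 1) + 1 = k by omega, show b + (J - 1) = m by omega]
        exact h5)
      (by
        rw [show b + (J - 1) + 1 = k by omega]
        exact (pow_le_pow_of_le_one hθ0.le hθ1.le (by omega)).trans hyθ) (J - 1) 0 (by omega)
    have h11 := hb2.1
    rw [show b + (J - 1) + 1 = k by omega, Nat.sub_add_cancel hJ1, add_zero] at h11
    exact hfin b (by omega) h11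
  · -- upper bound
    by_contra hcon
    have h1 : 1 + c < y (k + 1) / y k := by linarith [not_le.1 hcon]
    rw [lt_div_iff₀ hyk] at h1
    have h2 := (fwd2 (g := g) (k := k) (J := J) (ρ := 1 + c) (q := q) hK hy hD hθ0 hθ1
      (by omega) (by omega) hgk hq1 (by
        have h9 : q * g ^ J ≤ q * Real.exp (c / 4) :=
          mul_le_mul_of_nonneg_left hgJ (by linarith)
        refine h9.trans ?_
        have h10 : q ≤ (1 + c) * (1 - c / 4) := by rw [hq]; nlinarith
        calc q * Real.exp (c / 4) ≤ ((1 + c) * (1 - c / 4)) * Real.exp (c / 4) :=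
              mul_le_mul_of_nonneg_right h10 (Real.exp_pos _).le
          _ = (1 + c) * (Real.exp (c / 4) * (1 - c / 4)) := by ring
          _ ≤ (1 + c) * 1 := mul_le_mul_of_nonneg_left hexp (by linarith)
          _ = 1 + c := mul_one _) hyk h1.le
      ((pow_le_pow_of_le_one hθ0.le hθ1.le (by omega)).trans hyθ) J le_rfl).1
    exact hfin (k + J) (by omega) h2

end ana

end TH966.KS
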